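import Pool.Agent.Lib.MP_b7851d_lc.Star.Lift

/-!
# N3a: interface

Definitions and statements for the theorem N3a (finding 4318): doubly standard states (D-states) of
one labelled class.
-/

namespace Pool.Agent.QuadEq.Star

variable {α : Type} [DecidableEq α]

/-- Joined in both directions by `k` runs. -/
def Con (lam : α → α) (k : ℕ) (S S' : St α) : Prop := Runs lam k S S' ∧ Runs lam k S' S

/-- A D-state: `P = A m1 e`, `Q = B m0 f`, with a pair on the top and a pair on the bottom. -/
structure Dst (lam : α → α) (e f : α) (S : St α) : Prop where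
  /-- a state -/
  ok : Ok lam e f S
  /-- the top word ends with `m1 e` -/
  top : ∃ A, S.P = A ++ [lam S.m, e]
  /-- the bottom word ends with `m0 f` -/
  bot : ∃ B, S.Q = B ++ [S.m, f]
  /-- a pair on the top -/
  tt : ∃ x ∈ S.P, lam x ∈ S.P
  /-- a pair on the bottom -/
  bb : ∃ z ∈ S.Q, lam z ∈ S.Q

/-- `t` is the token right after `s` in the word `l`. -/
def Nxt (l : List α) (s t : α) : Prop := ∃ l₁ l₂, l = l₁ ++ s :: t :: l₂

/-- The graph of the map `g = sigma (f m)` of a state, `sigma` = next token, closed up. In a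
D-state `g f = f`. -/
def GG (e f : α) (S : St α) (s t : α) : Prop :=
  (s ≠ S.m ∧ s ≠ f ∧ (Nxt S.P s t ∨ Nxt S.Q s t ∨ (s = e ∧ S.P.head? = some t))) ∨
    (s = S.m ∧ S.Q.head? = some t) ∨ (s = f ∧ (Nxt S.P S.m t ∨ Nxt S.Q S.m t))

/-- The state `S` has the token set `X` and belongs to the labelled class of `io`. -/
structure Cls (lam io : α → α) (e f : α) (X : Finset α) (S : St α) : Prop where
  /-- the tokens -/
  tok : ∀ x, x ∈ S.P ++ S.Q ↔ x ∈ X
  /-- involution -/
  inv : ∀ x ∈ X, io (io x) = x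
  /-- closed -/
  mem : ∀ x ∈ X, io x ∈ X
  /-- `g lam = io g` -/
  com : ∀ s t, GG e f S s t → GG e f S (lam s) (io t)

/-- The deletion of the tokens `u` and `v`. -/
def St.del (u v : α) (S : St α) : St α := S.res fun x => !(decide (x = u) || decide (x = v))

/-- A thin state. -/
def Thin (lam : α → α) (e f : α) (S : St α) : Prop := ∃ x z A₁ A₂ A₃,
  S.P = A₁ ++ x :: (A₂ ++ lam x :: (A₃ ++ [lam S.m, e])) ∧
  S.Q = (A₃.map lam).reverse ++ z :: ((A₂.map lam).reverse ++ lam z ::
    ((A₁.map lam).reverse ++ [S.m, f]))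

/-- The conclusion of an agreement step: the D-state `S` is joined with a D-state
`P = u q ..` from which `u` can be deleted. -/
def Agr (lam io : α → α) (e f : α) (k : ℕ) (S : St α) (q : α) : Prop :=
  ∃ S' l, Con lam k S S' ∧ Dst lam e f S' ∧ S'.P = io f :: q :: l ∧
    Dst lam e f (S'.del (io f) (lam (io f)))

/-- row CLS: the class is invariant -/
def ClsStm : Prop := ∀ (α : Type) [DecidableEq α] (lam io : α → α) (e f : α) (X : Finset α)
  (S S' : St α), Ok lam e f S → Run lam S S' → (Cls lam io e f X S ↔ Cls lam io e f X S')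

/-- row A: a marked point -/
def AStm : Prop := ∃ k, ∀ (α : Type) [DecidableEq α] (lam io : α → α) (e f : α) (X : Finset α)
  (S : St α), Dst lam e f S → Cls lam io e f X S → ∀ q ∈ X, io q = lam q →
  Agr lam io e f k S q

/-- row B: the orbit of `e` has four elements -/
def BStm : Prop := ∃ k, ∀ (α : Type) [DecidableEq α] (lam io : α → α) (e f : α) (X : Finset α)
  (S : St α), Dst lam e f S → Cls lam io e f X S → S.Q.head? = some (lam (io f)) →
  ∀ q ∈ X, q ≠ e → q ≠ f → q ≠ io f → q ≠ lam (io f) → Agr lam io e f k S q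

/-- row C: the crosscap -/
def CStm : Prop := ∃ k, ∀ (α : Type) [DecidableEq α] (lam io : α → α) (e f : α) (X : Finset α)
  (S : St α), Dst lam e f S → Cls lam io e f X S → S.Q.head? ≠ some (lam (io f)) →
  (∀ q ∈ X, io q ≠ lam q) → 14 ≤ X.card → ¬ Thin lam e f S →
  Agr lam io e f k S (lam (io f))

/-- row THIN: the thin states of a class are few -/
def ThinStm : Prop := ∀ (α : Type) [DecidableEq α] (lam io : α → α) (e f : α) (X : Finset α)
  (K : ℕ) (S : Fin K → St α), (∀ i, Dst lam e f (S i) ∧ Cls lam io e f X (S i) ∧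
    Thin lam e f (S i)) → (X.card + 1) ^ 9 < K → ∃ i j, i < j ∧ S i = S j

/-- row PIG: theorem N3a -/
def PigStm : Prop := ∃ C : ℕ, ∀ (α : Type) [DecidableEq α] (lam io : α → α) (e f : α)
  (X : Finset α) (K : ℕ) (S : Fin K → St α),
  (∀ i, Dst lam e f (S i) ∧ Cls lam io e f X (S i)) → C * (X.card + 1) ^ 10 < K →
  ∃ i j, i < j ∧ Con lam (C * X.card) (S i) (S j)

end Pool.Agent.QuadEq.Star
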