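import Pool.Agent.Lib.MP_b7851d_lc.Star.N3a.Cls

/-!
# N3a: the pigeonhole induction

Row PIG: among many D-states of one labelled class two are joined in both directions by few runs.
-/

namespace Pool.Agent.QuadEq.Star

section

variable {α : Type} [DecidableEq α] {lam io : α → α} {e f : α} {X : Finset α}

theorem Con.symm {k : ℕ} {S S' : St α} (h : Con lam k S S') : Con lam k S' S := ⟨h.2, h.1⟩

theorem Con.trans {k l : ℕ} {S S' S'' : St α} (h : Con lam k S S') (h' : Con lam l S' S'') :
    Con lam (k + l) S S'' := ⟨h.1.trans h'.1, by rw [Nat.add_comm]; exact h'.2.trans h.2⟩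

theorem Con.mono {k l : ℕ} {S S' : St α} (h : Con lam k S S') (hkl : k ≤ l) :
    Con lam l S S' := ⟨h.1.mono hkl, h.2.mono hkl⟩

theorem Con.refl (S : St α) : Con lam 0 S S := ⟨rfl, rfl⟩

theorem Con.cls {k : ℕ} {S S' : St α} (hS : Ok lam e f S) (h : Con lam k S S')
    (hc : Cls lam io e f X S) : Cls lam io e f X S' := (cls_runs_iff hS h.1).mp hc

/-- The data of a D-state `u q ..` from which `u` can be deleted. -/
structure Rdy (lam io : α → α) (e f : α) (X : Finset α) (q : α) (S : St α) : Prop where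
  /-- a D-state -/
  d : Dst lam e f S
  /-- of the class -/
  c : Cls lam io e f X S
  /-- `q` follows `u` -/
  p : ∃ l, S.P = io f :: q :: l
  /-- the deletion is a D-state -/
  r : Dst lam e f (S.del (io f) (lam (io f)))

theorem Rdy.cl {q : α} {S : St α} (h : Rdy lam io e f X q S) :
    Cl lam e S (offY (io f) (lam (io f))) := by
  have hS := h.d.ok
  have hR := h.r.ok
  have hfX : f ∈ X := (h.c.tok f).mp (List.mem_append_right _ hS.fQ)
  have hu : io f ∈ S.P ++ S.Q := (h.c.tok _).mpr (h.c.mem f hfX)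
  have he : offY (io f) (lam (io f)) e = true := (mem_res.mp (List.mem_append_left _ hR.eP)).2
  have hf : offY (io f) (lam (io f)) f = true := (mem_res.mp (List.mem_append_right _ hR.fQ)).2
  have hm : offY (io f) (lam (io f)) S.m = true := (mem_res.mp hR.pm).2
  rw [offY_true] at he hf hm
  refine offCl hS hu he.1.symm hf.1.symm hm.1.symm fun h' => hm.2 ?_
  rw [h', hS.inv _ hS.pm]

theorem Rdy.cls {q : α} {S : St α} (h : Rdy lam io e f X q S) :
    Cls lam (delIo lam io f q) e f ((X.erase (io f)).erase (lam (io f)))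
      (S.del (io f) (lam (io f))) := by
  obtain ⟨l, hl⟩ := h.p
  have hY := h.cl
  have h1 := link_del h.d.ok (h.c.link h.d.ok) (gr_ff h.d.bot) hl hY
  refine cls_of_link h.r.ok h1 fun x => ?_
  rw [del_eq, mem_res, offY_true, h.c.tok, Finset.mem_erase, Finset.mem_erase]
  tauto

/-- A connection of the deletions lifts. -/
theorem Rdy.lift {q : α} {S S' : St α} {k : ℕ} (h : Rdy lam io e f X q S)
    (h' : Rdy lam io e f X q S')
    (hk : Runs lam k (S.del (io f) (lam (io f))) (S'.del (io f) (lam (io f)))) :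
    Runs lam k S S' := by
  have hS := h.d.ok
  have hS' := h'.d.ok
  obtain ⟨T, h1, h2, h3, h4, h5⟩ := lift_runs hS h.cl hk
  have hT : Cls lam io e f X T := (cls_runs_iff hS h1).mp h.c
  have hg : ∀ {S : St α}, Rdy lam io e f X q S → GR e f S (io f) q ∧
      GR e f S (lam (io f)) (io q) := by
    intro S h
    obtain ⟨l, hl⟩ := h.p
    have h6 := offY_true.mp h.cl.m
    have h7 : GR e f S (io f) q := Or.inl ⟨h6.1.symm, Or.inl (by rw [hl]; exact Or.inl ⟨rfl, rfl⟩)⟩
    exact ⟨h7, (h.c.link h.d.ok).com h.d.ok h7⟩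
  have g1 := hg h
  have g2 := hg h'
  have g3 := h5 _ _ (offY_false.mpr (Or.inl rfl)) g1.1
  have g4 := h5 _ _ (offY_false.mpr (Or.inr rfl)) g1.2
  have : T = S' := by
    refine eq_of_res h3 hS' h4 h'.cl h2 fun w y hw => ?_
    rcases offY_false.mp hw with rfl | rfl
    · constructor
      · intro g
        rw [g.unique h3 g3]; exact g2.1
      · intro g
        rw [g.unique hS' g2.1]; exact g3
    · constructor
      · intro g
        rw [g.unique h3 g4]; exact g2.2
      · intro g
        rw [g.unique hS' g2.2]; exact g4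
  rw [← this]
  exact h1

/-! ### The base: few tokens -/

theorem base_card {K : ℕ} (S : Fin K → St α) (hS : ∀ i, Ok lam e f (S i))
    (hX : ∀ i x, x ∈ (S i).P ++ (S i).Q ↔ x ∈ X)
    (hK : Nat.factorial X.card * (X.card + 1) * X.card < K) : ∃ i j, i < j ∧ S i = S j := by
  classical
  set T := (X.toList.permutations.toFinset ×ˢ Finset.range (X.card + 1)) ×ˢ X with hT
  have hTc : T.card ≤ Nat.factorial X.card * (X.card + 1) * X.card := by
    rw [hT, Finset.card_product, Finset.card_product, Finset.card_range]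
    gcongr
    refine (List.toFinset_card_le _).trans ?_
    rw [List.length_permutations, Finset.length_toList]
  have hmaps : ∀ i ∈ (Finset.univ : Finset (Fin K)),
      ((((S i).P ++ (S i).Q, (S i).P.length), (S i).m) : (List α × ℕ) × α) ∈ T := by
    intro i _
    have hperm : ((S i).P ++ (S i).Q).Perm X.toList := by
      rw [List.perm_ext_iff_of_nodup (hS i).nd (Finset.nodup_toList X)]
      intro x
      rw [hX i x, Finset.mem_toList]
    rw [hT, Finset.mem_product, Finset.mem_product]
    refine ⟨⟨?_, ?_⟩, ?_⟩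
    · rw [List.mem_toFinset, List.mem_permutations]
      exact hperm
    · rw [Finset.mem_range, Nat.lt_succ_iff]
      have := hperm.length_eq
      rw [List.length_append, Finset.length_toList] at this
      simp only
      omega
    · exact (hX i _).mp (hS i).pm
  have hc : T.card < (Finset.univ : Finset (Fin K)).card := by
    rw [Finset.card_univ, Fintype.card_fin]
    exact lt_of_le_of_lt hTc hK
  obtain ⟨i, _, j, _, hij, h⟩ := Finset.exists_ne_map_eq_of_card_lt_of_maps_to hc hmaps
  have hSij : S i = S j := by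
    simp only [Prod.mk.injEq] at h
    obtain ⟨⟨h1, h2⟩, h3⟩ := h
    obtain ⟨h4, h5⟩ := List.append_inj h1 h2
    cases hi : S i with
    | mk P Q m =>
      cases hj : S j with
      | mk P' Q' m' =>
        rw [hi, hj] at h3 h4 h5
        simp only at h3 h4 h5
        rw [h3, h4, h5]
  rcases lt_or_gt_of_ne hij with h | h
  · exact ⟨i, j, h, hSij⟩
  · exact ⟨j, i, h, hSij.symm⟩

/-- The bound on the number of states. -/
def pigN (n : ℕ) : ℕ := Nat.factorial 13 * 14 * 13 + n * (n + 1) ^ 9

/-- One step of the induction: many D-states which agree. -/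
theorem pig_step {k n : ℕ} {q : α}
    (ih : ∀ (io : α → α) (X : Finset α), X.card < n → ∀ (K : ℕ) (S : Fin K → St α),
      (∀ i, Dst lam e f (S i) ∧ Cls lam io e f X (S i)) → pigN X.card < K →
      ∃ i j, i < j ∧ Con lam (k * X.card) (S i) (S j))
    (hn : X.card = n) (hn2 : 2 ≤ n) {K : ℕ} (S : Fin K → St α)
    (hS : ∀ i, Dst lam e f (S i) ∧ Cls lam io e f X (S i))
    (J : Finset (Fin K)) (hJ : pigN (n - 2) < J.card)
    (hA : ∀ i ∈ J, Agr lam io e f k (S i) q) :
    ∃ i j, i < j ∧ Con lam (k * n) (S i) (S j) := by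
  have hA' : ∀ i : Fin J.card, ∃ S', Con lam k (S (J.orderEmbOfFin rfl i)) S' ∧
      Rdy lam io e f X q S' := by
    intro i
    obtain ⟨S', l, h1, h2, h3, h4⟩ := hA _ (J.orderEmbOfFin_mem rfl i)
    exact ⟨S', h1, h2, h1.cls (hS _).1.ok (hS _).2, ⟨l, h3⟩, h4⟩
  choose T hT1 hT2 using hA'
  -- the number of tokens drops by two
  have hpos : 0 < J.card := lt_of_le_of_lt (Nat.zero_le _) hJ
  have h0 := hT2 ⟨0, hpos⟩
  have hfX : f ∈ X := (h0.c.tok f).mp (List.mem_append_right _ h0.d.ok.fQ)
  have hu : io f ∈ X := h0.c.mem f hfX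
  have hv : lam (io f) ∈ X := (h0.c.tok _).mp (h0.d.ok.mem _ ((h0.c.tok _).mpr hu))
  have hvu : lam (io f) ≠ io f := h0.d.ok.ne _ ((h0.c.tok _).mpr hu)
  have hcard : ((X.erase (io f)).erase (lam (io f))).card = n - 2 := by
    rw [Finset.card_erase_of_mem (Finset.mem_erase.mpr ⟨hvu, hv⟩), Finset.card_erase_of_mem hu, hn]
    omega
  obtain ⟨i, j, hij, hc⟩ := ih (delIo lam io f q) ((X.erase (io f)).erase (lam (io f)))
    (by rw [hcard]; omega) J.card (fun i => (T i).del (io f) (lam (io f)))
    (fun i => ⟨(hT2 i).r, (hT2 i).cls⟩) (by rw [hcard]; exact hJ)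
  rw [hcard] at hc
  refine ⟨J.orderEmbOfFin rfl i, J.orderEmbOfFin rfl j, (J.orderEmbOfFin rfl).lt_iff_lt.mpr hij, ?_⟩
  have h1 : Con lam (k * (n - 2)) (T i) (T j) :=
    ⟨(hT2 i).lift (hT2 j) hc.1, (hT2 j).lift (hT2 i) hc.2⟩
  refine (((hT1 i).trans h1).trans (hT1 j).symm).mono ?_
  obtain ⟨d, rfl⟩ := Nat.exists_eq_add_of_le hn2
  rw [Nat.add_sub_cancel_left]
  nlinarith

theorem head_iff {S : St α} (hD : Dst lam e f S) (hc : Cls lam io e f X S) (v : α) :
    S.Q.head? = some v ↔ io e = v := by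
  have hS := hD.ok
  have hl := hc.link hS
  have g1 : GR e f S (lam S.m) e := by
    obtain ⟨A, hA⟩ := hD.top
    exact Or.inl ⟨hS.ne _ hS.pm, Or.inl (adj_iff.mpr ⟨A, [], hA⟩)⟩
  have g2 := hl.com hS g1
  rw [hS.inv _ hS.pm] at g2
  constructor
  · intro h
    have g3 : GR e f S S.m v := Or.inr (Or.inr (Or.inl ⟨rfl, h⟩))
    exact g2.unique hS g3
  · intro h
    rw [h] at g2
    rcases gr_iff.mp g2 with ⟨h1, _⟩ | ⟨h1, _⟩ | ⟨_, h1⟩ | ⟨h1, _⟩
    · exact absurd rfl h1
    · exact absurd h1 hS.pe
    · exact h1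
    · exact absurd h1 hS.pf

theorem pigN_mono {n : ℕ} (hn : 2 ≤ n) : pigN (n - 2) + (n + 1) ^ 9 ≤ pigN n := by
  obtain ⟨d, rfl⟩ := Nat.exists_eq_add_of_le hn
  unfold pigN
  have h1 : (2 + d - 2 + 1) ^ 9 ≤ (2 + d + 1) ^ 9 := by
    apply Nat.pow_le_pow_left
    omega
  have h2 : (2 + d - 2) * (2 + d - 2 + 1) ^ 9 ≤ d * (2 + d + 1) ^ 9 := by
    apply Nat.mul_le_mul _ h1
    omega
  have h3 : (2 + d) * (2 + d + 1) ^ 9 = d * (2 + d + 1) ^ 9 + 2 * (2 + d + 1) ^ 9 := by ring
  rw [h3]
  omega

/-- The induction. -/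
theorem pig_aux (k : ℕ)
    (hA : ∀ (io : α → α) (X : Finset α) (S : St α), Dst lam e f S → Cls lam io e f X S →
      ∀ q ∈ X, io q = lam q → Agr lam io e f k S q)
    (hB : ∀ (io : α → α) (X : Finset α) (S : St α), Dst lam e f S → Cls lam io e f X S →
      S.Q.head? = some (lam (io f)) → ∀ q ∈ X, q ≠ e → q ≠ f → q ≠ io f → q ≠ lam (io f) →
      Agr lam io e f k S q)
    (hC : ∀ (io : α → α) (X : Finset α) (S : St α), Dst lam e f S → Cls lam io e f X S →
      S.Q.head? ≠ some (lam (io f)) → (∀ q ∈ X, io q ≠ lam q) → 14 ≤ X.card →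
      ¬ Thin lam e f S → Agr lam io e f k S (lam (io f)))
    (hT : ∀ (io : α → α) (X : Finset α) (K : ℕ) (S : Fin K → St α),
      (∀ i, Dst lam e f (S i) ∧ Cls lam io e f X (S i) ∧ Thin lam e f (S i)) →
      (X.card + 1) ^ 9 < K → ∃ i j, i < j ∧ S i = S j) :
    ∀ (n : ℕ) (io : α → α) (X : Finset α), X.card = n → ∀ (K : ℕ) (S : Fin K → St α),
      (∀ i, Dst lam e f (S i) ∧ Cls lam io e f X (S i)) → pigN X.card < K →
      ∃ i j, i < j ∧ Con lam (k * X.card) (S i) (S j) := by
  classical
  intro n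
  induction n using Nat.strong_induction_on with
  | _ n IH =>
  intro io X hn K S hS hK
  have ih : ∀ (io : α → α) (X : Finset α), X.card < n → ∀ (K : ℕ) (S : Fin K → St α),
      (∀ i, Dst lam e f (S i) ∧ Cls lam io e f X (S i)) → pigN X.card < K →
      ∃ i j, i < j ∧ Con lam (k * X.card) (S i) (S j) :=
    fun io X hX => IH X.card hX io X rfl
  by_cases h14 : X.card < 14
  · obtain ⟨i, j, hij, h⟩ := base_card (lam := lam) (e := e) (f := f) (X := X) S
      (fun i => (hS i).1.ok) (fun i => (hS i).2.tok) (by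
        refine lt_of_le_of_lt ?_ hK
        unfold pigN
        have h1 : X.card ≤ 13 := by omega
        have h2 := Nat.factorial_le h1
        have h3 : X.card.factorial * (X.card + 1) * X.card ≤ Nat.factorial 13 * 14 * 13 := by
          gcongr
          omega
        exact h3.trans (Nat.le_add_right _ _))
    refine ⟨i, j, hij, ?_⟩
    rw [h]
    exact (Con.refl _).mono (Nat.zero_le _)
  · have h14' : 14 ≤ X.card := by omega
    have hn2 : 2 ≤ n := by omega
    have hmono := pigN_mono hn2
    rw [← hn] at hmono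
    have hKpos : 0 < K := lt_of_le_of_lt (Nat.zero_le _) hK
    have huniv : pigN (n - 2) < (Finset.univ : Finset (Fin K)).card := by
      rw [Finset.card_univ, Fintype.card_fin, ← hn]
      omega
    by_cases hmk : ∃ q ∈ X, io q = lam q
    · obtain ⟨q, hq, hq2⟩ := hmk
      rw [hn]
      exact pig_step ih hn hn2 S hS Finset.univ huniv
        (fun i _ => hA io X (S i) (hS i).1 (hS i).2 q hq hq2)
    · push Not at hmk
      by_cases hv : io e = lam (io f)
      · -- the orbit of `e` has four elements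
        obtain ⟨q, hq, hq1, hq2, hq3, hq4⟩ : ∃ q ∈ X, q ≠ e ∧ q ≠ f ∧ q ≠ io f ∧ q ≠ lam (io f) := by
          by_contra hcon
          push Not at hcon
          have hsub : X ⊆ {e, f, io f, lam (io f)} := by
            intro x hx
            simp only [Finset.mem_insert, Finset.mem_singleton]
            by_cases h1 : x = e
            · exact Or.inl h1
            · by_cases h2 : x = f
              · exact Or.inr (Or.inl h2)
              · by_cases h3 : x = io f
                · exact Or.inr (Or.inr (Or.inl h3))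
                · exact Or.inr (Or.inr (Or.inr (hcon x hx h1 h2 h3)))
          have h4 := (Finset.card_le_card hsub).trans (Finset.card_le_four)
          omega
        rw [hn]
        exact pig_step ih hn hn2 S hS Finset.univ huniv
          (fun i _ => hB io X (S i) (hS i).1 (hS i).2 ((head_iff (hS i).1 (hS i).2 _).mpr hv)
            q hq hq1 hq2 hq3 hq4)
      · set J := (Finset.univ : Finset (Fin K)).filter (fun i => ¬ Thin lam e f (S i)) with hJ
        set J' := (Finset.univ : Finset (Fin K)).filter (fun i => Thin lam e f (S i)) with hJ'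
        have hcard : J'.card + J.card = K := by
          rw [hJ, hJ', Finset.card_filter_add_card_filter_not, Finset.card_univ, Fintype.card_fin]
        have hJ'2 : ∀ i ∈ J', Thin lam e f (S i) := fun i hi => (Finset.mem_filter.mp hi).2
        by_cases hthin : (X.card + 1) ^ 9 < J'.card
        · obtain ⟨i, j, hij, h⟩ := hT io X J'.card (fun i => S (J'.orderEmbOfFin rfl i))
            (fun i => ⟨(hS _).1, (hS _).2, by
              exact hJ'2 _ (J'.orderEmbOfFin_mem rfl i)⟩) hthin
          refine ⟨J'.orderEmbOfFin rfl i, J'.orderEmbOfFin rfl j,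
            (J'.orderEmbOfFin rfl).lt_iff_lt.mpr hij, ?_⟩
          rw [h]
          exact (Con.refl _).mono (Nat.zero_le _)
        · rw [hn]
          refine pig_step (q := lam (io f)) ih hn hn2 S hS J ?_ ?_
          · rw [← hn]
            omega
          · intro i hi
            rw [hJ, Finset.mem_filter] at hi
            exact hC io X (S i) (hS i).1 (hS i).2
              (fun h => hv ((head_iff (hS i).1 (hS i).2 _).mp h)) hmk h14' hi.2

end

/-- row PIG from the rows A, B, C and THIN -/
theorem pigStm_of (hA : AStm) (hB : BStm) (hC : CStm) (hT : ThinStm) : PigStm := by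
  obtain ⟨kA, hA⟩ := hA
  obtain ⟨kB, hB⟩ := hB
  obtain ⟨kC, hC⟩ := hC
  refine ⟨Nat.factorial 13 * 14 * 13 + 1 + (kA + kB + kC), ?_⟩
  intro α _ lam io e f X K S hS hK
  have mono : ∀ {k : ℕ} {io : α → α} {S : St α} {q : α}, k ≤ kA + kB + kC →
      Agr lam io e f k S q → Agr lam io e f (kA + kB + kC) S q := by
    rintro k io S q hk ⟨S', l, h1, h2⟩
    exact ⟨S', l, h1.mono hk, h2⟩
  obtain ⟨i, j, hij, h⟩ := pig_aux (lam := lam) (e := e) (f := f) (kA + kB + kC)
    (fun io X S h1 h2 q hq hq2 => mono (by omega) (hA α lam io e f X S h1 h2 q hq hq2))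
    (fun io X S h1 h2 h3 q hq a b c d =>
      mono (by omega) (hB α lam io e f X S h1 h2 h3 q hq a b c d))
    (fun io X S h1 h2 h3 h4 h5 h6 => mono (by omega) (hC α lam io e f X S h1 h2 h3 h4 h5 h6))
    (fun io X K S h1 h2 => hT α lam io e f X K S h1 h2) X.card io X rfl K S hS (by
      refine lt_of_le_of_lt ?_ hK
      unfold pigN
      have h1 : X.card * (X.card + 1) ^ 9 ≤ (X.card + 1) ^ 10 := by
        rw [pow_succ, Nat.mul_comm]
        exact Nat.mul_le_mul_left _ (Nat.le_succ _)
      have h2 : 1 ≤ (X.card + 1) ^ 10 := Nat.one_le_pow _ _ (Nat.succ_pos _)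
      nlinarith [Nat.factorial_pos 13])
  refine ⟨i, j, hij, h.mono ?_⟩
  exact Nat.mul_le_mul_right _ (Nat.le_add_left _ _)

end Pool.Agent.QuadEq.Star
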