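import Pool.Agent.Lib.MP_b7851d_lc.Star.N3a.RowAB

/-!
# N3a: row C from the class invariance, the structure theorem and the certificates
-/

set_option linter.unusedSectionVars false

namespace Pool.Agent.QuadEq.Star.N3a

variable {α : Type} [DecidableEq α] {lam io : α → α} {e f : α} {X : Finset α} {S S' : St α}

/-- The first token of the bottom word. -/
theorem c_hv (hS : Dst lam e f S) (hC : Cls lam io e f X S) : S.Q.head? = some (io e) := by
  cases hQ : S.Q with
  | nil =>
    have := d_fQ hS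
    rw [hQ] at this
    simp at this
  | cons q L =>
    have h1 : S.Q.head? = some q := by rw [hQ]; rfl
    have h2 := c_headQ hS hC h1
    have hq : q ∈ X := (hC.tok q).1 (by rw [hQ]; simp)
    have h3 := hC.inv q hq
    rw [h2] at h3
    rw [List.head?_cons, h3]

theorem con_trans {k k' : ℕ} {S'' : St α} (h : Con lam k S S') (h' : Con lam k' S' S'') :
    Con lam (k + k') S S'' :=
  ⟨h.1.trans h'.1, (h'.2.trans h.2).mono (by omega)⟩

theorem agr_trans {k k' : ℕ} {q : α} (h : Con lam k S S') (h' : Agr lam io e f k' S' q) :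
    Agr lam io e f (k + k') S q := by
  obtain ⟨T, l, h1, h2, h3, h4⟩ := h'
  exact ⟨T, l, con_trans h h1, h2, h3, h4⟩

theorem cls_runs (hcls : ClsStm) {k : ℕ} {S : St α} (hS : Ok lam e f S)
    (h : Runs lam k S S') (hC : Cls lam io e f X S) : Cls lam io e f X S' := by
  induction k generalizing S with
  | zero =>
    obtain rfl : S = S' := h
    exact hC
  | succ k ih =>
    obtain ⟨S₁, h1, h2⟩ := h
    exact ih (h1.ok hS) h2 ((hcls α lam io e f X S S₁ hS h1).1 hC)

/-- Row C. -/
theorem rowC (hcls : ClsStm) (hstr : StrStm) (h1 : C1Stm) (h2 : C2Stm) : CStm := by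
  obtain ⟨k1, h1⟩ := h1
  obtain ⟨k2, h2⟩ := h2
  refine ⟨k1 + k2, ?_⟩
  intro α _ lam io e f X S hS hC hv hq hX hT
  have h3 : ∃ s ∈ LY, Emb lam e f s S := by
    by_contra h
    push Not at h
    exact hT (hstr α lam io e f X S hS hC hv hq hX h)
  obtain ⟨s, hs, hE⟩ := h3
  obtain ⟨S', h4, h5, h6⟩ := h1 α lam io e f X S hS hC s hs hE
  have hC' := cls_runs hcls hS.ok h4.1 hC
  have hv' : S'.Q.head? ≠ some (lam (io f)) := by
    rw [c_hv h5 hC']
    rwa [c_hv hS hC] at hv
  exact agr_trans h4 (h2 α lam io e f X S' h5 hC' hv' h6)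

end Pool.Agent.QuadEq.Star.N3a
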