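import Pool.Agent.Lib.MP_b7851d_lc.Star.N3a.Iface

/-!
# N3a, row THIN: the thin states of a labelled class are few

A thin state of a labelled class is determined by the pointer, by the tokens `x`, `z`, by the token
after `lam x` and by three lengths.
-/

namespace Pool.Agent.QuadEq.Star

variable {α : Type}

namespace ThinRow

/-- The word `b, c, F b, F c, F (F b), ...` of length `k`. -/
def gen (F : α → α) : ℕ → α → α → List α
  | 0, _, _ => []
  | k + 1, b, c => b :: gen F k c (F b)

theorem nxt_unique {l : List α} (hl : l.Nodup) {s t t' : α} (h : Nxt l s t) (h' : Nxt l s t') :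
    t = t' := by
  obtain ⟨l₁, l₂, h⟩ := h
  obtain ⟨l₁', l₂', h'⟩ := h'
  rw [h] at hl
  have hE : l₁ ++ s :: t :: l₂ = l₁' ++ s :: t' :: l₂' := by rw [← h, h']
  have hs : s ∉ l₁ := by
    intro hs
    have := List.nodup_append.1 hl
    exact this.2.2 s hs s (by simp) rfl
  have hl' : (l₁' ++ s :: t' :: l₂').Nodup := by rw [← hE]; exact hl
  have hs' : s ∉ l₁' := by
    intro hs
    have := List.nodup_append.1 hl'
    exact this.2.2 s hs s (by simp) rfl
  have h1 : l₁ = l₁' := by
    rcases List.append_eq_append_iff.1 hE with ⟨a, ha, hb⟩ | ⟨a, ha, hb⟩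
    · cases a with
      | nil => simpa using ha.symm
      | cons c a =>
        exfalso
        simp only [List.cons_append, List.cons.injEq] at hb
        apply hs'
        rw [ha, hb.1]
        simp
    · cases a with
      | nil => simpa using ha
      | cons c a =>
        exfalso
        simp only [List.cons_append, List.cons.injEq] at hb
        apply hs
        rw [ha, hb.1]
        simp
  rw [h1] at hE
  have h2 := List.append_cancel_left hE
  simp only [List.cons.injEq, true_and] at h2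
  exact h2.1

section
variable {lam io : α → α} {e f : α} {X : Finset α} {S : St α}

theorem step_PQ (hD : Dst lam e f S) (hC : Cls lam io e f X S) {s t : α} (h : Nxt S.Q (lam s) t)
    (hs : s ∈ S.P) (hm : lam s ≠ S.m) (hm' : s ≠ S.m) (he : s ≠ e) : Nxt S.P s (io t) := by
  have hO := hD.ok
  have hsf : s ≠ f := by
    rintro rfl
    have h1 : s ∈ S.Q := List.mem_of_getLast? hO.lf
    exact (List.nodup_append.1 hO.nd).2.2 s hs s h1 rfl
  have hlf : lam s ≠ f := by
    intro h1
    have h2 : lam (lam s) = lam f := by rw [h1]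
    rw [hO.inv s (by simp [hs])] at h2
    apply he
    rw [h2, ← hO.lef, hO.inv e (by simp [List.mem_of_getLast? hO.le])]
  have h1 : GG e f S (lam s) t := Or.inl ⟨hm, hlf, Or.inr (Or.inl h)⟩
  have h2 := hC.com _ _ h1
  rw [hO.inv s (by simp [hs])] at h2
  rcases h2 with ⟨-, -, h3 | h3 | h3⟩ | h3 | h3
  · exact h3
  · exfalso
    obtain ⟨l₁, l₂, h4⟩ := h3
    exact (List.nodup_append.1 hO.nd).2.2 s hs s (by rw [h4]; simp) rfl
  · exact absurd h3.1 he
  · exact absurd h3.1 hm'
  · exact absurd h3.1 hsf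

theorem step_PP (hD : Dst lam e f S) (hC : Cls lam io e f X S) {s t : α} (h : Nxt S.P s t)
    (hs : s ∈ S.P) (hls : lam s ∈ S.P) (hm : lam s ≠ S.m) (hm' : s ≠ S.m) (he : lam s ≠ e) :
    Nxt S.P (lam s) (io t) := by
  have hO := hD.ok
  have hnf : ∀ y ∈ S.P, y ≠ f := by
    rintro y hy rfl
    have h1 : y ∈ S.Q := List.mem_of_getLast? hO.lf
    exact (List.nodup_append.1 hO.nd).2.2 y hy y h1 rfl
  have h1 : GG e f S s t := Or.inl ⟨hm', hnf _ hs, Or.inl h⟩
  have h2 := hC.com _ _ h1
  rcases h2 with ⟨-, -, h3 | h3 | h3⟩ | h3 | h3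
  · exact h3
  · exfalso
    obtain ⟨l₁, l₂, h4⟩ := h3
    exact (List.nodup_append.1 hO.nd).2.2 _ hls _ (by rw [h4]; simp) rfl
  · exact absurd h3.1 he
  · exact absurd h3.1 hm
  · exact absurd h3.1 (hnf _ hls)

theorem head_P (hD : Dst lam e f S) (hC : Cls lam io e f X S) : S.P.head? = some (io f) := by
  have hO := hD.ok
  obtain ⟨B, hB⟩ := hD.bot
  have h1 : GG e f S f f := Or.inr (Or.inr ⟨rfl, Or.inr ⟨B, [], hB⟩⟩)
  have h2 := hC.com _ _ h1
  have hfe : lam f = e := by
    rw [← hO.lef, hO.inv e (by simp [List.mem_of_getLast? hO.le])]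
  have heP : e ∈ S.P := List.mem_of_getLast? hO.le
  have hef : e ≠ f := by
    rintro rfl
    exact (List.nodup_append.1 hO.nd).2.2 e heP e (List.mem_of_getLast? hO.lf) rfl
  rw [hfe] at h2
  rcases h2 with ⟨-, -, h3 | h3 | h3⟩ | h3 | h3
  · exfalso
    obtain ⟨A, hA⟩ := hD.top
    obtain ⟨l₁, l₂, h4⟩ := h3
    have hnd : S.P.Nodup := (List.nodup_append.1 hO.nd).1
    rw [h4] at hnd
    have h5 : S.P.getLast? = some e := hO.le
    rw [h4] at h5
    have h6 : (l₁ ++ e :: io f :: l₂).getLast? = (io f :: l₂).getLast? := by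
      rw [show l₁ ++ e :: io f :: l₂ = (l₁ ++ [e]) ++ (io f :: l₂) by simp,
        List.getLast?_append]
      cases h7 : (io f :: l₂).getLast? with
      | none => simp at h7
      | some a => simp
    rw [h6] at h5
    have h7 : e ∈ io f :: l₂ := List.mem_of_getLast? h5
    have h8 := (List.nodup_append.1 hnd).2.1
    exact (List.nodup_cons.1 h8).1 h7
  · exfalso
    obtain ⟨l₁, l₂, h4⟩ := h3
    exact (List.nodup_append.1 hO.nd).2.2 _ heP _ (by rw [h4]; simp) rfl
  · exact h3.2
  · exact absurd h3.1.symm hO.pe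
  · exact absurd h3.1 hef

/-- A block of `P` whose partners are reversed in `Q` is determined by its first token and by the
token after the block of the partners. -/
theorem block (hD : Dst lam e f S) (hC : Cls lam io e f X S) : ∀ (A : List α) (q : α)
    (L₁ L₂ M₁ M₂ : List α) (y : α), S.P = L₁ ++ (A ++ y :: L₂) →
    S.Q = M₁ ++ ((A.map lam).reverse ++ q :: M₂) → S.m ∉ (A.map lam) → S.m ∉ A → e ∉ A →
    ∀ a A', A = a :: A' → A = gen (fun s => io (lam s)) A.length a (io q) := by
  intro A
  induction A with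
  | nil => intro q L₁ L₂ M₁ M₂ y _ _ _ _ _ a A' h; simp at h
  | cons d A ih =>
    intro q L₁ L₂ M₁ M₂ y hP hQ hm hm' he a A' h
    obtain ⟨rfl, rfl⟩ := List.cons.inj h
    have hdP : d ∈ S.P := by rw [hP]; simp
    have hN : Nxt S.Q (lam d) q := ⟨M₁ ++ (A.map lam).reverse, M₂, by rw [hQ]; simp⟩
    have h1 := step_PQ hD hC hN hdP (fun h => hm (by simp [← h])) (fun h => hm' (by simp [← h]))
      (fun h => he (by simp [← h]))
    cases A with
    | nil => simp [gen]
    | cons d' A =>
      have h2 : Nxt S.P d d' := ⟨L₁, A ++ y :: L₂, by rw [hP]; simp⟩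
      have hnd : S.P.Nodup := (List.nodup_append.1 hD.ok.nd).1
      have h3 : d' = io q := nxt_unique hnd h2 h1
      have h4 := ih (lam d) (L₁ ++ [d]) L₂ M₁ (q :: M₂) y (by rw [hP]; simp) (by rw [hQ]; simp)
        (fun h => hm (List.mem_cons_of_mem _ h)) (fun h => hm' (List.mem_cons_of_mem _ h))
        (fun h => he (List.mem_cons_of_mem _ h)) d' A rfl
      rw [List.length_cons, gen, ← h3]
      exact congrArg _ h4

theorem block' (hD : Dst lam e f S) (hC : Cls lam io e f X S) (A : List α) (q : α)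
    (L₁ L₂ M₁ M₂ : List α) (y a : α) (hP : S.P = L₁ ++ (A ++ y :: L₂))
    (hQ : S.Q = M₁ ++ ((A.map lam).reverse ++ q :: M₂)) (hm : S.m ∉ (A.map lam)) (hm' : S.m ∉ A)
    (he : e ∉ A) (ha : ∀ b ∈ A.head?, b = a) :
    A = gen (fun s => io (lam s)) A.length a (io q) := by
  cases A with
  | nil => simp [gen]
  | cons b A =>
    have h1 : b = a := ha b (by simp)
    subst h1
    exact block hD hC (b :: A) q L₁ L₂ M₁ M₂ y hP hQ hm hm' he b A rfl

/-- The words of a thin state. -/
theorem thin_eq (hD : Dst lam e f S) (hC : Cls lam io e f X S) {x z : α} {A₁ A₂ A₃ : List α}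
    (hP : S.P = A₁ ++ x :: (A₂ ++ lam x :: (A₃ ++ [lam S.m, e])))
    (hQ : S.Q = (A₃.map lam).reverse ++ z :: ((A₂.map lam).reverse ++ lam z ::
      ((A₁.map lam).reverse ++ [S.m, f]))) :
    ∃ c ∈ X, A₁ = gen (fun s => io (lam s)) A₁.length (io f) (io S.m) ∧
      A₂ = gen (fun s => io (lam s)) A₂.length (io c) (io (lam z)) ∧
      A₃ = gen (fun s => io (lam s)) A₃.length c (io z) := by
  have hO := hD.ok
  have hndP : S.P.Nodup := (List.nodup_append.1 hO.nd).1
  have hndQ : S.Q.Nodup := (List.nodup_append.1 hO.nd).2.1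
  have hdis := (List.nodup_append.1 hO.nd).2.2
  have hmQ : S.m ∈ S.Q := by rw [hQ]; simp
  have hmP : S.m ∉ S.P := fun h => hdis _ h _ hmQ rfl
  have heP : ∀ A L₁ L₂ : List α, S.P = L₁ ++ (A ++ L₂) → L₂ ≠ [] → e ∉ A := by
    intro A L₁ L₂ h h2 he
    have h5 : S.P.getLast? = some e := hO.le
    rw [h, ← List.append_assoc, List.getLast?_append] at h5
    cases h7 : L₂.getLast? with
    | none => exact h2 (by simpa using h7)
    | some a =>
      rw [h7] at h5
      simp at h5
      subst h5
      rw [h] at hndP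
      have h8 := (List.nodup_append.1 hndP).2.1
      exact (List.nodup_append.1 h8).2.2 _ he _ (List.mem_of_getLast? h7) rfl
  have hmA : ∀ A M₁ M₂ : List α, S.Q = M₁ ++ ((A.map lam).reverse ++ M₂) → S.m ∈ M₂ →
      S.m ∉ A.map lam := by
    intro A M₁ M₂ h h2 h3
    rw [h] at hndQ
    have h8 := (List.nodup_append.1 hndQ).2.1
    exact (List.nodup_append.1 h8).2.2 _ (List.mem_reverse.2 h3) _ h2 rfl
  have hmA' : ∀ A : List α, (∀ a ∈ A, a ∈ S.P) → S.m ∉ A := fun A h h' => hmP (h _ h')
  -- the token after `lam x`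
  obtain ⟨c, L, hc⟩ : ∃ c L, A₃ ++ [lam S.m, e] = c :: L := by
    cases A₃ with
    | nil => exact ⟨lam S.m, [e], rfl⟩
    | cons a A => exact ⟨a, A ++ [lam S.m, e], rfl⟩
  have hcP : c ∈ S.P := by
    rw [hP, hc]; simp
  refine ⟨c, (hC.tok c).1 (by simp [hcP]), ?_, ?_, ?_⟩
  · refine block' hD hC A₁ S.m [] (A₂ ++ lam x :: (A₃ ++ [lam S.m, e]))
      ((A₃.map lam).reverse ++ z :: ((A₂.map lam).reverse ++ [lam z])) [f] x (io f)
      (by rw [hP]; simp) (by rw [hQ]; simp) ?_ ?_ ?_ ?_
    · exact hmA A₁ ((A₃.map lam).reverse ++ z :: ((A₂.map lam).reverse ++ [lam z])) [S.m, f]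
        (by rw [hQ]; simp) (by simp)
    · exact hmA' A₁ (fun a ha => by rw [hP]; simp [ha])
    · exact heP A₁ [] (x :: (A₂ ++ lam x :: (A₃ ++ [lam S.m, e]))) (by rw [hP, List.nil_append])
        (by simp)
    · intro b hb
      have h1 := head_P hD hC
      rw [hP] at h1
      cases A₁ with
      | nil => simp at hb
      | cons d A =>
        simp only [List.cons_append, List.head?_cons, Option.some.injEq] at h1
        simp only [List.head?_cons, Option.mem_def, Option.some.injEq] at hb
        rw [← hb, h1]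
  · refine block' hD hC A₂ (lam z) (A₁ ++ [x]) (A₃ ++ [lam S.m, e])
      ((A₃.map lam).reverse ++ [z]) ((A₁.map lam).reverse ++ [S.m, f]) (lam x) (io c)
      (by rw [hP]; simp) (by rw [hQ]; simp) ?_ ?_ ?_ ?_
    · exact hmA A₂ ((A₃.map lam).reverse ++ [z]) (lam z :: ((A₁.map lam).reverse ++ [S.m, f]))
        (by rw [hQ]; simp) (by simp)
    · exact hmA' A₂ (fun a ha => by rw [hP]; simp [ha])
    · exact heP A₂ (A₁ ++ [x]) (lam x :: (A₃ ++ [lam S.m, e])) (by rw [hP]; simp) (by simp)
    · intro b hb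
      cases A₂ with
      | nil => simp at hb
      | cons d A =>
        simp only [List.head?_cons, Option.mem_def, Option.some.injEq] at hb
        subst hb
        have h1 : Nxt S.P x d := ⟨A₁, A ++ lam x :: (A₃ ++ [lam S.m, e]), by rw [hP]; simp⟩
        have hxP : x ∈ S.P := by rw [hP]; simp
        have hlP : lam x ∈ S.P := by rw [hP]; simp
        have hle : lam x ≠ e := by
          intro h
          exact heP [lam x] (A₁ ++ x :: (d :: A)) (A₃ ++ [lam S.m, e]) (by rw [hP]; simp)
            (by simp) (by simp [h])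
        have h2 := step_PP hD hC h1 hxP hlP (fun h => hmP (h ▸ hlP)) (fun h => hmP (h ▸ hxP)) hle
        have h3 : Nxt S.P (lam x) c := ⟨A₁ ++ x :: (d :: A), L, by rw [hP, hc]; simp⟩
        have h4 : io d = c := nxt_unique hndP h2 h3
        have hdX : d ∈ X := (hC.tok d).1 (by rw [hP]; simp)
        rw [← h4, hC.inv d hdX]
  · refine block' hD hC A₃ z (A₁ ++ x :: (A₂ ++ [lam x])) [e] []
      ((A₂.map lam).reverse ++ lam z :: ((A₁.map lam).reverse ++ [S.m, f])) (lam S.m) c
      (by rw [hP]; simp) (by rw [hQ]; simp) ?_ ?_ ?_ ?_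
    · exact hmA A₃ [] (z :: ((A₂.map lam).reverse ++ lam z ::
        ((A₁.map lam).reverse ++ [S.m, f]))) (by rw [hQ]; simp) (by simp)
    · exact hmA' A₃ (fun a ha => by rw [hP]; simp [ha])
    · exact heP A₃ (A₁ ++ x :: (A₂ ++ [lam x])) [lam S.m, e] (by rw [hP]; simp) (by simp)
    · intro b hb
      cases A₃ with
      | nil => simp at hb
      | cons d A =>
        simp only [List.head?_cons, Option.mem_def, Option.some.injEq] at hb
        simp only [List.cons_append, List.cons.injEq] at hc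
        rw [← hb, hc.1]

end

end ThinRow

open ThinRow in
/-- Row THIN. -/
theorem thinStm : ThinStm := by
  classical
  intro α _ lam io e f X K S hS hK
  choose hD hC hT using hS
  choose x z A₁ A₂ A₃ hP hQ using hT
  have hT := fun i => thin_eq (hD i) (hC i) (hP i) (hQ i)
  choose c hc h1 h2 h3 using hT
  have hlen : ∀ i, (A₁ i).length ≤ X.card ∧ (A₂ i).length ≤ X.card ∧ (A₃ i).length ≤ X.card := by
    intro i
    have hnd : (S i).P.Nodup := (List.nodup_append.1 (hD i).ok.nd).1
    have h4 : (S i).P.length ≤ X.card := by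
      rw [← List.toFinset_card_of_nodup hnd]
      apply Finset.card_le_card
      intro a ha
      exact ((hC i).tok a).1 (by simp [List.mem_toFinset.1 ha])
    rw [hP i] at h4
    simp only [List.length_append, List.length_cons, List.length_nil] at h4
    omega
  have htok : ∀ i, ∀ a ∈ (S i).P ++ (S i).Q, a ∈ X := fun i a ha => ((hC i).tok a).1 ha
  let F : Fin K → X × X × X × X × Fin (X.card + 1) × Fin (X.card + 1) × Fin (X.card + 1) :=
    fun i => (⟨(S i).m, htok i _ (hD i).ok.pm⟩, ⟨x i, htok i _ (by rw [hP i]; simp)⟩,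
      ⟨z i, htok i _ (by rw [hQ i]; simp)⟩, ⟨c i, hc i⟩,
      ⟨(A₁ i).length, by have := hlen i; omega⟩, ⟨(A₂ i).length, by have := hlen i; omega⟩,
      ⟨(A₃ i).length, by have := hlen i; omega⟩)
  have hcard : Fintype.card (X × X × X × X × Fin (X.card + 1) × Fin (X.card + 1) ×
      Fin (X.card + 1)) < Fintype.card (Fin K) := by
    simp only [Fintype.card_prod, Fintype.card_coe, Fintype.card_fin]
    refine lt_of_le_of_lt ?_ hK
    calc X.card * (X.card * (X.card * (X.card * ((X.card + 1) * ((X.card + 1) *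
          (X.card + 1))))))
        ≤ (X.card + 1) * ((X.card + 1) * ((X.card + 1) * ((X.card + 1) * ((X.card + 1) *
          ((X.card + 1) * (X.card + 1)))))) := by gcongr <;> omega
      _ = (X.card + 1) ^ 7 := by ring
      _ ≤ (X.card + 1) ^ 9 := Nat.pow_le_pow_right (by omega) (by omega)
  obtain ⟨i, j, hij, hF⟩ := Fintype.exists_ne_map_eq_of_card_lt F hcard
  have key : S i = S j := by
    simp only [F, Prod.mk.injEq, Subtype.mk.injEq, Fin.mk.injEq] at hF
    obtain ⟨e1, e2, e3, e4, e5, e6, e7⟩ := hF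
    have g1 : A₁ i = A₁ j := by rw [h1 i, h1 j, e5, e1]
    have g2 : A₂ i = A₂ j := by rw [h2 i, h2 j, e6, e4, e3]
    have g3 : A₃ i = A₃ j := by rw [h3 i, h3 j, e7, e4, e3]
    have hp : (S i).P = (S j).P := by rw [hP i, hP j, g1, g2, g3, e1, e2]
    have hq : (S i).Q = (S j).Q := by rw [hQ i, hQ j, g1, g2, g3, e1, e3]
    cases hi : S i
    cases hj : S j
    simp only [hi, hj] at hp hq e1
    simp [hp, hq, e1]
  rcases lt_or_gt_of_ne hij with h | h
  · exact ⟨i, j, h, key⟩
  · exact ⟨j, i, h, key.symm⟩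

end Pool.Agent.QuadEq.Star
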