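import Pool.Agent.Lib.MP_b7851d_lc.Star.N3a.Iface

/-!
# N3a: the list LY of patterns

Patterns are states over `ℕ`, the pairing is `x ↦ x xor 1`, `e = 0`, `f = 1`, `m0 = 2`, `m1 = 3`.
-/

namespace Pool.Agent.QuadEq.Star

variable {α : Type} [DecidableEq α]

/-- The pairing of the patterns. -/
def xl (x : ℕ) : ℕ := if x % 2 = 0 then x + 1 else x - 1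

/-- The pattern `s` embeds into the state `S`. -/
def Emb (lam : α → α) (e f : α) (s : St ℕ) (S : St α) : Prop := ∃ φ : ℕ → α,
  (∀ x ∈ s.P ++ s.Q, ∀ y ∈ s.P ++ s.Q, φ x = φ y → x = y) ∧
  (∀ x ∈ s.P ++ s.Q, φ (xl x) = lam (φ x)) ∧ φ 0 = e ∧ φ 1 = f ∧ φ s.m = S.m ∧
  (s.P.map φ).Sublist S.P ∧ (s.Q.map φ).Sublist S.Q

/-- The 60 patterns. -/
def LY : List (St ℕ) := [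
  ⟨[4, 5, 6, 7, 3, 0], [8, 9, 2, 1], 2⟩,
  ⟨[4, 5, 3, 0], [6, 8, 9, 7, 2, 1], 2⟩,
  ⟨[4, 6, 5, 3, 0], [8, 9, 7, 2, 1], 2⟩,
  ⟨[4, 6, 7, 3, 0], [8, 5, 9, 2, 1], 2⟩,
  ⟨[4, 5, 3, 0], [6, 7, 8, 9, 10, 11, 2, 1], 2⟩,
  ⟨[4, 5, 6, 3, 0], [8, 7, 9, 10, 11, 2, 1], 2⟩,
  ⟨[4, 5, 3, 0], [6, 8, 7, 10, 9, 11, 2, 1], 2⟩,
  ⟨[4, 5, 6, 3, 0], [8, 7, 10, 9, 11, 2, 1], 2⟩,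
  ⟨[4, 5, 6, 3, 0], [8, 9, 7, 10, 11, 2, 1], 2⟩,
  ⟨[4, 5, 6, 3, 0], [8, 9, 10, 7, 11, 2, 1], 2⟩,
  ⟨[4, 5, 6, 8, 3, 0], [9, 10, 7, 11, 2, 1], 2⟩,
  ⟨[4, 5, 6, 8, 3, 0], [9, 10, 11, 7, 2, 1], 2⟩,
  ⟨[4, 5, 6, 3, 0], [8, 10, 9, 7, 11, 2, 1], 2⟩,
  ⟨[4, 5, 6, 8, 3, 0], [10, 9, 7, 11, 2, 1], 2⟩,
  ⟨[4, 5, 6, 8, 3, 0], [10, 9, 11, 7, 2, 1], 2⟩,
  ⟨[4, 5, 6, 8, 3, 0], [10, 11, 9, 7, 2, 1], 2⟩,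
  ⟨[4, 6, 5, 3, 0], [7, 8, 9, 10, 11, 2, 1], 2⟩,
  ⟨[4, 6, 5, 8, 3, 0], [7, 9, 10, 11, 2, 1], 2⟩,
  ⟨[4, 6, 5, 8, 7, 3, 0], [9, 10, 11, 2, 1], 2⟩,
  ⟨[4, 6, 5, 3, 0], [8, 7, 10, 9, 11, 2, 1], 2⟩,
  ⟨[4, 6, 5, 8, 3, 0], [7, 10, 9, 11, 2, 1], 2⟩,
  ⟨[4, 6, 5, 8, 7, 3, 0], [10, 9, 11, 2, 1], 2⟩,
  ⟨[4, 6, 5, 8, 3, 0], [9, 7, 10, 11, 2, 1], 2⟩,
  ⟨[4, 6, 5, 8, 3, 0], [10, 7, 9, 11, 2, 1], 2⟩,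
  ⟨[4, 6, 7, 3, 0], [5, 8, 9, 10, 11, 2, 1], 2⟩,
  ⟨[4, 6, 7, 5, 3, 0], [8, 9, 10, 11, 2, 1], 2⟩,
  ⟨[4, 6, 7, 5, 8, 3, 0], [9, 10, 11, 2, 1], 2⟩,
  ⟨[4, 6, 7, 5, 8, 3, 0], [10, 9, 11, 2, 1], 2⟩,
  ⟨[4, 6, 7, 8, 5, 3, 0], [9, 10, 11, 2, 1], 2⟩,
  ⟨[4, 6, 7, 8, 3, 0], [5, 10, 9, 11, 2, 1], 2⟩,
  ⟨[4, 6, 7, 8, 3, 0], [9, 5, 10, 11, 2, 1], 2⟩,
  ⟨[4, 6, 7, 3, 0], [8, 9, 10, 11, 5, 2, 1], 2⟩,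
  ⟨[4, 6, 7, 8, 3, 0], [10, 9, 11, 5, 2, 1], 2⟩,
  ⟨[4, 6, 7, 8, 3, 0], [10, 11, 9, 5, 2, 1], 2⟩,
  ⟨[4, 6, 8, 5, 3, 0], [7, 10, 9, 11, 2, 1], 2⟩,
  ⟨[4, 6, 8, 5, 3, 0], [9, 7, 10, 11, 2, 1], 2⟩,
  ⟨[4, 6, 8, 5, 9, 3, 0], [7, 10, 11, 2, 1], 2⟩,
  ⟨[4, 6, 8, 5, 9, 7, 3, 0], [10, 11, 2, 1], 2⟩,
  ⟨[4, 6, 8, 5, 3, 0], [9, 10, 7, 11, 2, 1], 2⟩,
  ⟨[4, 6, 8, 7, 3, 0], [5, 9, 10, 11, 2, 1], 2⟩,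
  ⟨[4, 6, 8, 7, 5, 9, 3, 0], [10, 11, 2, 1], 2⟩,
  ⟨[4, 6, 8, 7, 5, 3, 0], [10, 9, 11, 2, 1], 2⟩,
  ⟨[4, 6, 8, 7, 3, 0], [9, 5, 10, 11, 2, 1], 2⟩,
  ⟨[4, 6, 8, 7, 3, 0], [9, 10, 11, 5, 2, 1], 2⟩,
  ⟨[4, 6, 8, 9, 5, 3, 0], [7, 10, 11, 2, 1], 2⟩,
  ⟨[4, 6, 8, 9, 3, 0], [7, 5, 10, 11, 2, 1], 2⟩,
  ⟨[4, 6, 8, 9, 7, 3, 0], [5, 10, 11, 2, 1], 2⟩,
  ⟨[4, 6, 8, 9, 7, 5, 3, 0], [10, 11, 2, 1], 2⟩,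
  ⟨[4, 6, 8, 9, 3, 0], [7, 10, 11, 5, 2, 1], 2⟩,
  ⟨[4, 5, 6, 8, 3, 0], [9, 7, 10, 11, 12, 13, 2, 1], 2⟩,
  ⟨[4, 5, 6, 8, 10, 3, 0], [7, 11, 9, 12, 13, 2, 1], 2⟩,
  ⟨[4, 5, 6, 8, 10, 3, 0], [9, 7, 11, 12, 13, 2, 1], 2⟩,
  ⟨[4, 5, 6, 8, 10, 3, 0], [9, 7, 12, 11, 13, 2, 1], 2⟩,
  ⟨[4, 6, 5, 8, 10, 3, 0], [9, 12, 11, 7, 13, 2, 1], 2⟩,
  ⟨[4, 6, 8, 5, 10, 3, 0], [12, 11, 9, 7, 13, 2, 1], 2⟩,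
  ⟨[4, 6, 8, 10, 5, 3, 0], [12, 7, 11, 9, 13, 2, 1], 2⟩,
  ⟨[4, 6, 8, 10, 5, 3, 0], [12, 9, 7, 11, 13, 2, 1], 2⟩,
  ⟨[4, 6, 8, 10, 11, 9, 3, 0], [12, 13, 7, 5, 2, 1], 2⟩,
  ⟨[4, 6, 8, 10, 11, 3, 0], [12, 13, 5, 9, 7, 2, 1], 2⟩,
  ⟨[4, 6, 8, 10, 11, 3, 0], [12, 13, 7, 5, 9, 2, 1], 2⟩
]

/-- The gadget `aabb|cc`. -/
def gad : St ℕ := ⟨[4, 5, 6, 7, 3, 0], [8, 9, 2, 1], 2⟩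

/-- The cores with five pairs. -/
def core5 : List (St ℕ) := [⟨[4, 5, 3, 0], [6, 7, 8, 9, 2, 1], 2⟩,
  ⟨[4, 5, 6, 3, 0], [8, 7, 9, 2, 1], 2⟩,
  ⟨[4, 6, 5, 3, 0], [7, 8, 9, 2, 1], 2⟩,
  ⟨[4, 6, 7, 5, 3, 0], [8, 9, 2, 1], 2⟩]

/-- The cores with six pairs. -/
def core6 : List (St ℕ) := [⟨[4, 5, 6, 3, 0], [7, 8, 9, 10, 11, 2, 1], 2⟩,
  ⟨[4, 5, 6, 8, 3, 0], [7, 10, 9, 11, 2, 1], 2⟩,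
  ⟨[4, 6, 5, 3, 0], [8, 7, 9, 10, 11, 2, 1], 2⟩,
  ⟨[4, 6, 5, 8, 3, 0], [10, 9, 7, 11, 2, 1], 2⟩,
  ⟨[4, 6, 7, 8, 5, 3, 0], [10, 9, 11, 2, 1], 2⟩,
  ⟨[4, 6, 7, 3, 0], [8, 9, 5, 10, 11, 2, 1], 2⟩,
  ⟨[4, 6, 8, 7, 5, 3, 0], [9, 10, 11, 2, 1], 2⟩,
  ⟨[4, 6, 8, 9, 7, 3, 0], [10, 11, 5, 2, 1], 2⟩]

/-- row STR: the structure theorem -/
def StrStm : Prop := ∀ (α : Type) [DecidableEq α] (lam io : α → α) (e f : α) (X : Finset α)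
  (S : St α), Dst lam e f S → Cls lam io e f X S → S.Q.head? ≠ some (lam (io f)) →
  (∀ q ∈ X, io q ≠ lam q) → 14 ≤ X.card → (∀ s ∈ LY, ¬ Emb lam e f s S) → Thin lam e f S

/-- row CERT, C1 -/
def C1Stm : Prop := ∃ k, ∀ (α : Type) [DecidableEq α] (lam io : α → α) (e f : α) (X : Finset α)
  (S : St α), Dst lam e f S → Cls lam io e f X S → ∀ s ∈ LY, Emb lam e f s S →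
  ∃ S', Con lam k S S' ∧ Dst lam e f S' ∧ Emb lam e f gad S'

/-- row CERT, C2 -/
def C2Stm : Prop := ∃ k, ∀ (α : Type) [DecidableEq α] (lam io : α → α) (e f : α) (X : Finset α)
  (S : St α), Dst lam e f S → Cls lam io e f X S → S.Q.head? ≠ some (lam (io f)) →
  Emb lam e f gad S → Agr lam io e f k S (lam (io f))

end Pool.Agent.QuadEq.Star
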