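import Pool.Agent.Lib.MP_b7851d_lc.Star.Lift
import Pool.Agent.Lib.MP_b7851d_lc.Star.N3a.LY

/-!
# N3a: certificates on patterns, lifting

A pattern `s` (over `β`) together with a map `φ` of its tokens and a block `B a` before every token
`a` gives the state `ex φ B s`. A word of moves of patterns lifts to a path between these states.
-/

namespace Pool.Agent.QuadEq.Star.N3a

set_option linter.unusedSectionVars false

variable {α β : Type*} [DecidableEq α] [DecidableEq β]

/-- The word with blocks. -/
def exL (φ : β → α) (B : β → List α) (l : List β) : List α := l.flatMap fun a => B a ++ [φ a]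

/-- The state with blocks. -/
def ex (φ : β → α) (B : β → List α) (s : St β) : St α := ⟨exL φ B s.P, exL φ B s.Q, φ s.m⟩

section basic

variable {φ : β → α} {B : β → List α}

@[simp] theorem exL_nil : exL φ B [] = [] := rfl

theorem exL_cons (a : β) (l : List β) : exL φ B (a :: l) = B a ++ φ a :: exL φ B l := by
  simp [exL]

theorem exL_append (l l' : List β) : exL φ B (l ++ l') = exL φ B l ++ exL φ B l' := by
  simp [exL]

theorem mem_exL {l : List β} {x : α} : x ∈ exL φ B l ↔ ∃ a ∈ l, x ∈ B a ∨ x = φ a := by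
  simp [exL]

theorem mem_exL_of_mem {l : List β} {a : β} (h : a ∈ l) : φ a ∈ exL φ B l :=
  mem_exL.2 ⟨a, h, Or.inr rfl⟩

theorem exL_ne_nil {l : List β} (h : l ≠ []) : exL φ B l ≠ [] := by
  cases l with
  | nil => exact absurd rfl h
  | cons a l => rw [exL_cons]; simp

theorem exL_perm {l l' : List β} (h : List.Perm l l') : List.Perm (exL φ B l) (exL φ B l') :=
  h.flatMap_right _

/-- `φ` is injective on the tokens. -/
theorem inj_of_nodup {l : List β} (h : (exL φ B l).Nodup) {a b : β} (ha : a ∈ l) (hb : b ∈ l)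
    (hab : φ a = φ b) : a = b := by
  induction l with
  | nil => simp at ha
  | cons c l ih =>
    rw [exL_cons] at h
    have h' := (List.nodup_append.1 h).2.1
    have h1 := List.nodup_cons.1 h'
    rcases List.mem_cons.1 ha with ha1 | ha1
    · rcases List.mem_cons.1 hb with hb1 | hb1
      · rw [ha1, hb1]
      · rw [ha1] at hab
        exact absurd (hab ▸ mem_exL_of_mem hb1) h1.1
    · rcases List.mem_cons.1 hb with hb1 | hb1
      · rw [hb1] at hab
        exact absurd (hab ▸ mem_exL_of_mem ha1) h1.1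
      · exact ih h1.2 ha1 hb1

/-- No token is in a block. -/
theorem not_mem_blk {l : List β} (h : (exL φ B l).Nodup) {a b : β} (ha : a ∈ l) (hb : b ∈ l) :
    φ a ∉ B b := by
  induction l with
  | nil => simp at ha
  | cons c l ih =>
    rw [exL_cons] at h
    have h0 := List.nodup_append.1 h
    have h1 := List.nodup_cons.1 h0.2.1
    intro hc
    rcases List.mem_cons.1 ha with ha1 | ha1
    · rcases List.mem_cons.1 hb with hb1 | hb1
      · rw [ha1, hb1] at hc
        exact h0.2.2 _ hc _ (by simp) rfl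
      · rw [ha1] at hc
        exact h1.1 (mem_exL.2 ⟨b, hb1, Or.inl hc⟩)
    · rcases List.mem_cons.1 hb with hb1 | hb1
      · rw [hb1] at hc
        exact h0.2.2 _ hc _ (List.mem_cons_of_mem _ (mem_exL_of_mem ha1)) rfl
      · exact ih h1.2 ha1 hb1 hc

theorem exL_insL {m v : β} {l : List β} (h1 : ∀ a ∈ l, φ a = φ m → a = m)
    (h2 : ∀ a ∈ l, φ m ∉ B a) :
    exL φ B (insL m [v] l) = insL (φ m) (B v ++ [φ v]) (exL φ B l) := by
  induction l with
  | nil => rfl
  | cons a l ih =>
    have ih' := ih (fun b hb => h1 b (List.mem_cons_of_mem _ hb))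
      (fun b hb => h2 b (List.mem_cons_of_mem _ hb))
    rw [insL, exL_cons, insL_append_right _ (h2 a (by simp)), insL]
    by_cases ha : a = m
    · subst ha
      rw [if_pos rfl, if_pos rfl, exL_cons, List.cons_append, List.nil_append, exL_cons]
      simp
    · rw [if_neg ha, if_neg (fun h => ha (h1 a (by simp) h)), exL_cons, ih']

/-- Lifting of a T step. -/
theorem ex_tS {s t : St β} (h : tS s = some t) (hn : (exL φ B (s.P ++ s.Q)).Nodup)
    (hm : s.m ∈ s.P ++ s.Q) : TRun (ex φ B s) (ex φ B t) := by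
  obtain ⟨v, Q, h1, h2, h3, rfl⟩ := tS_eq_some.mp h
  obtain ⟨P, Q', m⟩ := s
  simp only at h1 h2 h3 hn hm ⊢
  subst h1
  have hi : ∀ a ∈ P ++ v :: Q, φ a = φ m → a = m := fun a ha he => inj_of_nodup hn ha hm he
  have hb : ∀ a ∈ P ++ v :: Q, φ m ∉ B a := fun a ha => not_mem_blk hn hm ha
  refine ⟨B v ++ [φ v], exL φ B Q, by simp, exL_ne_nil h3, ?_, ?_, ?_⟩
  · intro hmem
    rcases List.mem_append.1 hmem with h | h
    · exact hb v (by simp) h
    · exact h2 (hi v (by simp) (List.mem_singleton.1 h).symm)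
  · show exL φ B (v :: Q) = _
    rw [exL_cons]; simp
  · unfold ex
    simp only
    rw [exL_insL (fun a ha => hi a (by simp [ha])) (fun a ha => hb a (by simp [ha])),
      exL_insL (fun a ha => hi a (by simp [ha])) (fun a ha => hb a (by simp [ha])),
      lst_append_singleton]

end basic

section lift

variable {lam : α → α} {e f : α} {mu : β → β} {e' f' : β} {φ : β → α} {B : β → List α}

theorem step_perm {b : Bool} {s t : St β} (hs : Ok mu e' f' s) (h : step mu b s = some t) :
    List.Perm (t.P ++ t.Q) (s.P ++ s.Q) := by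
  cases b with
  | true => exact (trun_of_tS h).perm hs.pm hs.nd
  | false =>
    obtain ⟨h3, h4, h5⟩ := (bS_eq_some hs).mp h
    have h6 := (trun_of_tS h4).perm hs.swap.pm hs.swap.nd
    exact (List.perm_append_comm.trans h6).trans List.perm_append_comm

/-- Lifting of a step. -/
theorem ex_step {b : Bool} {s t : St β} (h : step mu b s = some t) (hs : Ok mu e' f' s)
    (hφ : ∀ a ∈ s.P ++ s.Q, φ (mu a) = lam (φ a)) (hS : Ok lam e f (ex φ B s)) :
    Run lam (ex φ B s) (ex φ B t) := by
  have hn : (exL φ B (s.P ++ s.Q)).Nodup := by rw [exL_append]; exact hS.nd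
  cases b with
  | true => exact Run.of_trun (ex_tS h hn hs.pm) hS
  | false =>
    obtain ⟨h3, h4, h5⟩ := (bS_eq_some hs).mp h
    have e1 : ex φ B (s.swap mu) = (ex φ B s).swap lam := by
      unfold ex St.swap
      simp only
      rw [hφ _ hs.pm]
    have ht := step_ok hs h
    have htp : t.m ∈ s.P ++ s.Q := (step_perm hs h).mem_iff.1 ht.pm
    have e2 : ex φ B (t.swap mu) = (ex φ B t).swap lam := by
      unfold ex St.swap
      simp only
      rw [hφ _ htp]
    have h6 := ex_tS (φ := φ) (B := B) h4 ((exL_perm List.perm_append_comm).nodup_iff.1 hn)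
      hs.swap.pm
    rw [e1, e2] at h6
    have h7 := (Run.of_trun h6 hS.swap).swap hS.swap
    have h8 := (h6.ok hS.swap).swap_swap
    rw [hS.swap_swap] at h7
    have e3 : ((ex φ B t).swap lam).swap lam = ex φ B t := by
      have : lam (lam (φ t.m)) = φ t.m := hS.inv _ (by
        show _ ∈ exL φ B s.P ++ exL φ B s.Q
        rw [← exL_append]
        exact mem_exL_of_mem htp)
      unfold ex St.swap
      simp only
      rw [this]
    rwa [e3] at h7

/-- Lifting of a word of moves. -/
theorem ex_exec {w : List Bool} {s t : St β} (h : exec mu w s = some t) (hs : Ok mu e' f' s)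
    (hφ : ∀ a ∈ s.P ++ s.Q, φ (mu a) = lam (φ a)) (hS : Ok lam e f (ex φ B s)) :
    Runs lam w.length (ex φ B s) (ex φ B t) ∧ List.Perm (t.P ++ t.Q) (s.P ++ s.Q) ∧
      Ok mu e' f' t ∧ Ok lam e f (ex φ B t) := by
  induction w generalizing s with
  | nil => obtain rfl := Option.some.inj h; exact ⟨rfl, List.Perm.refl _, hs, hS⟩
  | cons b w ih =>
    rw [exec] at h
    obtain ⟨r, h1, h2⟩ := Option.bind_eq_some_iff.mp h
    have hp := step_perm hs h1
    have hr := step_ok hs h1
    have h3 := ex_step h1 hs hφ hS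
    obtain ⟨h4, h5, h6, h7⟩ := ih h2 hr (fun a ha => hφ a (hp.mem_iff.1 ha)) (h3.ok hS)
    exact ⟨⟨_, h3, h4⟩, h5.trans hp, h6, h7⟩

end lift

/-! ### From a sublist to blocks -/

theorem split_unique {X X' Y Y' : List α} {x : α} (hn : (X ++ x :: Y).Nodup)
    (h : X ++ x :: Y = X' ++ x :: Y') : X = X' ∧ Y = Y' := by
  induction X generalizing X' with
  | nil =>
    cases X' with
    | nil => exact ⟨rfl, (List.cons.inj h).2⟩
    | cons a X' =>
      rw [List.nil_append, List.cons_append] at h
      obtain ⟨rfl, rfl⟩ := List.cons.inj h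
      simp at hn
  | cons a X ih =>
    cases X' with
    | nil =>
      rw [List.nil_append, List.cons_append] at h
      obtain ⟨rfl, h2⟩ := List.cons.inj h
      simp at hn
    | cons b X' =>
      rw [List.cons_append, List.cons_append] at h
      obtain ⟨rfl, h2⟩ := List.cons.inj h
      obtain ⟨h3, h4⟩ := ih (List.nodup_cons.1 hn).2 h2
      exact ⟨by rw [h3], h4⟩

theorem exL_congr {φ : β → α} {B B' : β → List α} {l : List β} (h : ∀ a ∈ l, B a = B' a) :
    exL φ B l = exL φ B' l := by
  unfold exL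
  exact List.flatMap_congr fun a ha => by rw [h a ha]

theorem exists_blk {φ : β → α} : ∀ (l : List β) (L : List α), l.Nodup → (l.map φ).Sublist L →
    ∃ B R, exL φ B l ++ R = L
  | [], L, _, _ => ⟨fun _ => [], L, rfl⟩
  | a :: l, L, hn, h => by
    rw [List.map_cons, List.cons_sublist_iff] at h
    obtain ⟨r₁, r₂, rfl, h1, h2⟩ := h
    obtain ⟨X, Y, rfl, -⟩ := List.eq_append_cons_of_mem h1
    obtain ⟨B, R, h3⟩ := exists_blk l (Y ++ r₂) (List.nodup_cons.1 hn).2
      (h2.trans (List.sublist_append_right _ _))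
    refine ⟨Function.update B a X, R, ?_⟩
    rw [exL_cons, Function.update_self, exL_congr (B' := B)]
    · rw [List.append_assoc, List.cons_append, h3]; simp
    · intro b hb
      rw [Function.update_of_ne]
      rintro rfl
      exact (List.nodup_cons.1 hn).1 hb

theorem exists_exL {φ : β → α} {l : List β} {L : List α} {z : β} (hn : l.Nodup) (hN : L.Nodup)
    (h : (l.map φ).Sublist L) (hl : l.getLast? = some z) (hL : L.getLast? = some (φ z)) :
    ∃ B, exL φ B l = L := by
  obtain ⟨B, R, h1⟩ := exists_blk l L hn h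
  refine ⟨B, ?_⟩
  obtain ⟨l', rfl⟩ := List.getLast?_eq_some_iff.1 hl
  rcases List.eq_nil_or_concat R with rfl | ⟨R, c, rfl⟩
  · simpa using h1
  · rw [List.concat_eq_append] at h1
    exfalso
    rw [← h1, ← List.append_assoc, List.getLast?_concat] at hL
    obtain rfl := Option.some.inj hL
    rw [← h1, List.nodup_append] at hN
    exact hN.2.2 (φ z) (mem_exL_of_mem (by simp)) (φ z) (by simp) rfl

theorem exists_ex {φ : β → α} {s : St β} {S : St α} {z z' : β} (hn : (s.P ++ s.Q).Nodup)
    (hN : (S.P ++ S.Q).Nodup) (h1 : (s.P.map φ).Sublist S.P) (h2 : (s.Q.map φ).Sublist S.Q)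
    (hz : s.P.getLast? = some z) (hz' : s.Q.getLast? = some z')
    (hZ : S.P.getLast? = some (φ z)) (hZ' : S.Q.getLast? = some (φ z')) (hm : φ s.m = S.m) :
    ∃ B, ex φ B s = S := by
  rw [List.nodup_append] at hn hN
  obtain ⟨B1, e1⟩ := exists_exL hn.1 hN.1 h1 hz hZ
  obtain ⟨B2, e2⟩ := exists_exL hn.2.1 hN.2.1 h2 hz' hZ'
  refine ⟨fun a => if a ∈ s.P then B1 a else B2 a, ?_⟩
  unfold ex
  rw [exL_congr (B' := B1) (fun a ha => by rw [if_pos ha]), e1,
    exL_congr (B' := B2) (fun a ha => by rw [if_neg (fun h => hn.2.2 a h a ha rfl)]), e2, hm]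

/-- An adjacent pair of tokens has no block between. -/
theorem blk_nil_of_adj {φ : β → α} {B : β → List α} {a b : β} {l₁ l₂ : List β}
    {L₁ L₂ : List α} (hn : (exL φ B (l₁ ++ a :: b :: l₂)).Nodup)
    (h : exL φ B (l₁ ++ a :: b :: l₂) = L₁ ++ φ a :: φ b :: L₂) : B b = [] := by
  have e1 : exL φ B (l₁ ++ a :: b :: l₂) =
      (exL φ B l₁ ++ B a) ++ φ a :: (B b ++ φ b :: exL φ B l₂) := by
    rw [exL_append, exL_cons, exL_cons]; simp
  rw [e1] at hn h
  obtain ⟨-, h2⟩ := split_unique hn h
  cases hb : B b with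
  | nil => rfl
  | cons c r =>
    exfalso
    rw [hb] at h2 hn
    rw [List.cons_append] at h2 hn
    obtain ⟨rfl, -⟩ := List.cons.inj h2
    have := (List.nodup_append.1 hn).2.1
    rw [List.nodup_cons, List.nodup_cons] at this
    exact this.2.1 (by simp)

/-- The head has no block. -/
theorem blk_nil_of_head {φ : β → α} {B : β → List α} {b : β} {l : List β}
    {L : List α} (hn : (exL φ B (b :: l)).Nodup) (h : exL φ B (b :: l) = φ b :: L) : B b = [] := by
  rw [exL_cons] at hn h
  cases hb : B b with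
  | nil => rfl
  | cons c r =>
    exfalso
    rw [hb, List.cons_append] at h hn
    obtain ⟨rfl, -⟩ := List.cons.inj h
    rw [List.nodup_cons] at hn
    exact hn.1 (by simp)

end Pool.Agent.QuadEq.Star.N3a
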