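import Pool.Agent.Lib.MP_b7851d_lc.Star.N3a.Enum

/-!
# N3a: certificates

A certificate of a pattern `s` consists of two words of moves, from `s` to a pattern `t` of a
D-state and back.
-/

set_option linter.unusedSectionVars false

namespace Pool.Agent.QuadEq.Star.N3a

/-! ### Tests -/

theorem endb_iff {a b : ℕ} : ∀ {l : List ℕ}, endb a b l = true → ∃ A, l = A ++ [a, b]
  | [], h => by simp [endb] at h
  | [_], h => by simp [endb] at h
  | [x, y], h => by
    simp only [endb, Bool.and_eq_true, beq_iff_eq] at h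
    exact ⟨[], by rw [h.1, h.2]; rfl⟩
  | x :: y :: z :: l, h => by
    rw [endb] at h
    obtain ⟨A, hA⟩ := endb_iff h
    exact ⟨x :: A, by rw [hA]; rfl⟩

theorem adjb_iff {a b : ℕ} : ∀ {l : List ℕ}, adjb a b l = true →
    ∃ l₁ l₂, l = l₁ ++ a :: b :: l₂
  | [], h => by simp [adjb] at h
  | [_], h => by simp [adjb] at h
  | x :: y :: l, h => by
    rw [adjb, Bool.or_eq_true] at h
    rcases h with h | h
    · simp only [Bool.and_eq_true, beq_iff_eq] at h
      exact ⟨[], l, by rw [h.1, h.2]; rfl⟩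
    · obtain ⟨l₁, l₂, h1⟩ := adjb_iff h
      exact ⟨x :: l₁, l₂, by rw [h1]; rfl⟩

theorem prb_iff {l : List ℕ} (h : prb l = true) : ∃ x ∈ l, xl x ∈ l := by
  unfold prb at h
  obtain ⟨x, h1, h2⟩ := List.any_eq_true.1 h
  exact ⟨x, h1, by simpa using h2⟩

/-- One step of the enumeration. -/
def nxt (g : Ctx → List Ctx) (t : Ctx → Bool) (l : List Ctx) : List Ctx := (l.flatMap g).filter t

theorem mem_nxt {g : Ctx → List Ctx} {t : Ctx → Bool} {l : List Ctx} {c c' : Ctx} (h : c ∈ l)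
    (h' : c' ∈ g c) (ht : t c' = true) : c' ∈ nxt g t l :=
  List.mem_filter.2 ⟨List.mem_flatMap.2 ⟨c, h, h'⟩, ht⟩

/-- The deletion of a pair. -/
def dl (u : ℕ) (s : St ℕ) : St ℕ :=
  ⟨s.P.filter fun x => x != u && x != xl u, s.Q.filter fun x => x != u && x != xl u, s.m⟩

/-- A D-state pattern. -/
def dstb (s : St ℕ) : Bool := formb s && prb s.P && prb s.Q

/-- The check of a certificate, row A and B. -/
def chkQ (u q : ℕ) (w w' : List Bool) (s : St ℕ) : Bool :=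
  match exec xl w s with
  | none => false
  | some t => decide (exec xl w' t = some s) && dstb t && (t.P.take 2 == [u, q]) &&
      (t.m != u && t.m != xl u) && dstb (dl u t)

/-- The word of moves with the given code. -/
def wdF : ℕ → ℕ → List Bool
  | 0, _ => []
  | k + 1, n => if n ≤ 1 then [] else (n % 2 == 1) :: wdF k (n / 2)

/-- The word of moves with the given code. -/
def wd (n : ℕ) : List Bool := wdF 400 n

section

variable {α : Type} [DecidableEq α] {lam io : α → α} {e f : α}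
variable {φ : ℕ → α} {s t : St ℕ} {S : St α}

theorem Pat.form (h : Pat lam e f φ s S) (hS : Dst lam e f S) : formb s = true := by
  have hsz : 2 ≤ sz s := by have := h.ms; have := h.evn; omega
  obtain ⟨A, hA⟩ := hS.top
  obtain ⟨B, hB⟩ := hS.bot
  have e1 : φ (xl s.m) = lam S.m := by rw [h.lam _ h.ms, h.hm]
  have hx := xl_lt h.evn h.ms
  have hA' : S.P = A ++ [φ (xl s.m), φ 0] := by rw [hA, e1, h.h0]
  have hB' : S.Q = B ++ [φ s.m, φ 1] := by rw [hB, h.hm, h.h1]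
  have hn := List.nodup_append.1 hS.ok.nd
  unfold formb
  rw [Bool.and_eq_true]
  constructor
  · exact endb_of (hA' ▸ h.sP) ((h.memP hS.ok hx).2 (by rw [hA']; simp))
      ((h.memP hS.ok (by omega)).2 (by rw [hA']; simp)) (hA' ▸ hn.1) h.injP
  · exact endb_of (hB' ▸ h.sQ) ((h.memQ hS.ok h.ms).2 (by rw [hB']; simp))
      ((h.memQ hS.ok (by omega)).2 (by rw [hB']; simp)) (hB' ▸ hn.2.1) h.injQ

theorem Pat.ok (h : Pat lam e f φ s S) (hS : Dst lam e f S) : Ok xl 0 1 s := by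
  have hf := h.form hS
  unfold formb at hf
  rw [Bool.and_eq_true] at hf
  obtain ⟨A, hA⟩ := endb_iff hf.1
  obtain ⟨B, hB⟩ := endb_iff hf.2
  refine ⟨fun x _ => xl_xl x, fun x _ => xl_ne x,
    fun x hx => h.mem.2 (xl_lt h.evn (h.mem.1 hx)), rfl, h.nd, ?_, ?_, h.mem.2 h.ms, ?_, ?_⟩
  · rw [hA]; simp
  · rw [hB]; simp
  · intro h1
    exact hS.ok.pe (by rw [← h.hm, h1, h.h0])
  · intro h1
    exact hS.ok.pf (by rw [← h.hm, h1, h.h1])

theorem Pat.head (h : Pat lam e f φ s S) (hS : Ok lam e f S) {u : ℕ} (hu : u < sz s)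
    (hh : S.P.head? = some (φ u)) : s.P.head? = some u := by
  obtain ⟨L, hL⟩ : ∃ L, S.P = φ u :: L := by
    cases hP : S.P with
    | nil => rw [hP] at hh; simp at hh
    | cons a L => rw [hP, List.head?_cons] at hh; exact ⟨L, by rw [Option.some.inj hh]⟩
  obtain ⟨l', h1, -⟩ := head_of (hL ▸ h.sP) ((h.memP hS hu).2 (by rw [hL]; simp))
    (hL ▸ (List.nodup_append.1 hS.nd).1) h.injP
  rw [h1]; rfl

theorem Pat.headQ (h : Pat lam e f φ s S) (hS : Ok lam e f S) {u : ℕ} (hu : u < sz s)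
    (hh : S.Q.head? = some (φ u)) : s.Q.head? = some u := by
  obtain ⟨L, hL⟩ : ∃ L, S.Q = φ u :: L := by
    cases hP : S.Q with
    | nil => rw [hP] at hh; simp at hh
    | cons a L => rw [hP, List.head?_cons] at hh; exact ⟨L, by rw [Option.some.inj hh]⟩
  obtain ⟨l', h1, -⟩ := head_of (hL ▸ h.sQ) ((h.memQ hS hu).2 (by rw [hL]; simp))
    (hL ▸ (List.nodup_append.1 hS.nd).2.1) h.injQ
  rw [h1]; rfl

theorem Pat.adj (h : Pat lam e f φ s S) (hS : Ok lam e f S) {a b : ℕ} (ha : a < sz s)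
    (hb : b < sz s) (hh : Nxt S.P (φ a) (φ b) ∨ Nxt S.Q (φ a) (φ b)) : adS s a b = true := by
  unfold adS
  rw [Bool.or_eq_true]
  rcases hh with ⟨l₁, l₂, h1⟩ | ⟨l₁, l₂, h1⟩
  · left
    exact adjb_of h.sP h1 ((h.memP hS ha).2 (by rw [h1]; simp))
      ((h.memP hS hb).2 (by rw [h1]; simp)) (List.nodup_append.1 hS.nd).1 h.injP
  · right
    exact adjb_of h.sQ h1 ((h.memQ hS ha).2 (by rw [h1]; simp))
      ((h.memQ hS hb).2 (by rw [h1]; simp)) (List.nodup_append.1 hS.nd).2.1 h.injQ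

theorem exL_sub {B : ℕ → List α} (l : List ℕ) : (l.map φ).Sublist (exL φ B l) := by
  induction l with
  | nil => simp
  | cons a l ih =>
    rw [List.map_cons, exL_cons]
    exact (ih.cons_cons _).trans (List.sublist_append_right _ _)

/-- The transfer of a certificate. -/
theorem Pat.cert (h : Pat lam e f φ s S) (hS : Dst lam e f S) {w w' : List Bool}
    (h1 : exec xl w s = some t) (h2 : exec xl w' t = some s) (ht : dstb t = true) :
    ∃ B, ex φ B s = S ∧ Con lam (w.length + w'.length) S (ex φ B t) ∧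
      Dst lam e f (ex φ B t) ∧ Pat lam e f φ t (ex φ B t) ∧ sz t = sz s := by
  have hs := h.ok hS
  have hsf := h.form hS
  unfold formb at hsf
  rw [Bool.and_eq_true] at hsf
  obtain ⟨A, hA⟩ := endb_iff hsf.1
  obtain ⟨C, hC⟩ := endb_iff hsf.2
  obtain ⟨B, hB⟩ := exists_ex (φ := φ) (z := 0) (z' := 1) h.nd hS.ok.nd h.sP h.sQ hs.le hs.lf
    (by rw [h.h0]; exact hS.ok.le) (by rw [h.h1]; exact hS.ok.lf) h.hm
  have hokS : Ok lam e f (ex φ B s) := by rw [hB]; exact hS.ok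
  have hφs : ∀ a ∈ s.P ++ s.Q, φ (xl a) = lam (φ a) := fun a ha => h.lam a (h.mem.1 ha)
  obtain ⟨r1, p1, okt, okT⟩ := ex_exec (φ := φ) (B := B) h1 hs hφs hokS
  have hφt : ∀ a ∈ t.P ++ t.Q, φ (xl a) = lam (φ a) := fun a ha => hφs a (p1.mem_iff.1 ha)
  obtain ⟨r2, -, -, -⟩ := ex_exec (φ := φ) (B := B) h2 okt hφt okT
  -- the blocks of the last tokens are empty
  obtain ⟨A', hA'⟩ := hS.top
  obtain ⟨C', hC'⟩ := hS.bot
  have e1 : φ (xl s.m) = lam S.m := by rw [h.lam _ h.ms, h.hm]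
  have hP : exL φ B s.P = S.P := congrArg St.P hB
  have hQ : exL φ B s.Q = S.Q := congrArg St.Q hB
  have hn := List.nodup_append.1 hS.ok.nd
  have hb0 : B 0 = [] := by
    refine blk_nil_of_adj (φ := φ) (a := xl s.m) (l₁ := A) (l₂ := []) (L₁ := A') (L₂ := []) ?_ ?_
    · rw [← hA, hP]; exact hn.1
    · rw [← hA, hP, hA', e1, h.h0]
  have hb1 : B 1 = [] := by
    refine blk_nil_of_adj (φ := φ) (a := s.m) (l₁ := C) (l₂ := []) (L₁ := C') (L₂ := []) ?_ ?_
    · rw [← hC, hQ]; exact hn.2.1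
    · rw [← hC, hQ, hC', h.hm, h.h1]
  unfold dstb formb at ht
  simp only [Bool.and_eq_true] at ht
  obtain ⟨⟨⟨ht1, ht2⟩, ht3⟩, ht4⟩ := ht
  obtain ⟨A₁, hA₁⟩ := endb_iff ht1
  obtain ⟨C₁, hC₁⟩ := endb_iff ht2
  obtain ⟨x, hx, hx'⟩ := prb_iff ht3
  obtain ⟨z, hz, hz'⟩ := prb_iff ht4
  have hsz : sz t = sz s := by
    have := p1.length_eq
    simp only [List.length_append] at this
    exact this
  have hmt : ∀ x, x ∈ t.P ++ t.Q → x < sz s := fun x hx => h.mem.1 (p1.mem_iff.1 hx)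
  refine ⟨B, hB, ⟨?_, ?_⟩, ⟨okT, ?_, ?_, ?_, ?_⟩, ⟨?_, ?_, ?_, ?_, h.h0, h.h1, rfl, ?_, exL_sub _,
    exL_sub _⟩, hsz⟩
  · rw [hB] at r1
    exact r1.mono (by omega)
  · rw [hB] at r2
    exact r2.mono (by omega)
  · refine ⟨exL φ B A₁ ++ B (xl t.m), ?_⟩
    show exL φ B t.P = _
    rw [hA₁, exL_append, exL_cons, exL_cons, hb0, hφt _ okt.pm, h.h0]
    simp [ex]
  · refine ⟨exL φ B C₁ ++ B t.m, ?_⟩
    show exL φ B t.Q = _
    rw [hC₁, exL_append, exL_cons, exL_cons, hb1, h.h1]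
    simp [ex]
  · exact ⟨φ x, mem_exL_of_mem hx, by rw [← hφt x (by simp [hx])]; exact mem_exL_of_mem hx'⟩
  · exact ⟨φ z, mem_exL_of_mem hz, by rw [← hφt z (by simp [hz])]; exact mem_exL_of_mem hz'⟩
  · rw [hsz]; exact p1.trans h.perm
  · rw [hsz]; exact h.evn
  · rw [hsz]; exact h.inj
  · rw [hsz]; exact h.lam
  · exact hsz ▸ hmt _ okt.pm

/-- The test of the deletion. -/
theorem mem_del {a b x : α} {l : List α} :
    x ∈ l.filter (fun x => !(decide (x = a) || decide (x = b))) ↔ x ∈ l ∧ x ≠ a ∧ x ≠ b := by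
  rw [List.mem_filter]
  simp

theorem mem_dl {u x : ℕ} {l : List ℕ} :
    x ∈ l.filter (fun x => x != u && x != xl u) ↔ x ∈ l ∧ x ≠ u ∧ x ≠ xl u := by
  rw [List.mem_filter]
  simp

/-- The deletion of a pair from a D-state. -/
theorem Dst.del {T : St α} {a : α} (hT : Dst lam e f T) (ha : a ∈ T.P ++ T.Q) (h1 : e ≠ a)
    (h2 : e ≠ lam a) (h3 : T.m ≠ a) (h4 : T.m ≠ lam a)
    (h5 : ∃ x ∈ T.P, x ≠ a ∧ x ≠ lam a ∧ lam x ∈ T.P)
    (h6 : ∃ x ∈ T.Q, x ≠ a ∧ x ≠ lam a ∧ lam x ∈ T.Q) : Dst lam e f (T.del a (lam a)) := by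
  have hinv := hT.ok.inv
  have hlne : ∀ x ∈ T.P ++ T.Q, x ≠ a ∧ x ≠ lam a → lam x ≠ a ∧ lam x ≠ lam a := by
    rintro x hx ⟨h7, h8⟩
    constructor
    · intro h9
      apply h8
      rw [← h9, hinv x hx]
    · intro h9
      apply h7
      rw [← hinv x hx, h9, hinv a ha]
  have hcl : Cl lam e T (fun x => !(decide (x = a) || decide (x = lam a))) := by
    refine ⟨fun x hx h7 => ?_, ?_, ?_⟩
    · have := hlne x hx (by simpa using h7)
      simpa using this
    · simp [h1, h2]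
    · simp [h3, h4]
  have hlef := hT.ok.lef
  have he : e ∈ T.P ++ T.Q := List.mem_append_left _ (List.mem_of_getLast? hT.ok.le)
  have hf : f ≠ a ∧ f ≠ lam a := by
    rw [← hlef]
    exact hlne e he ⟨h1, h2⟩
  have hm1 := hlne _ hT.ok.pm ⟨h3, h4⟩
  obtain ⟨A, hA⟩ := hT.top
  obtain ⟨C, hC⟩ := hT.bot
  refine ⟨hT.ok.res hcl, ⟨A.filter (fun x => !(decide (x = a) || decide (x = lam a))), ?_⟩,
    ⟨C.filter (fun x => !(decide (x = a) || decide (x = lam a))), ?_⟩, ?_, ?_⟩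
  · show T.P.filter _ = _
    rw [hA, List.filter_append]
    congr 1
    simp [St.del, St.res, hm1.1, hm1.2, h1, h2]
  · show T.Q.filter _ = _
    rw [hC, List.filter_append]
    congr 1
    simp [St.del, St.res, h3, h4, hf.1, hf.2]
  · obtain ⟨x, hx, h7, h8, h9⟩ := h5
    exact ⟨x, mem_del.2 ⟨hx, h7, h8⟩, mem_del.2 ⟨h9, hlne x (by simp [hx]) ⟨h7, h8⟩⟩⟩
  · obtain ⟨x, hx, h7, h8, h9⟩ := h6
    exact ⟨x, mem_del.2 ⟨hx, h7, h8⟩, mem_del.2 ⟨h9, hlne x (by simp [hx]) ⟨h7, h8⟩⟩⟩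

/-- Agreement from a certificate. -/
theorem Pat.agr (h : Pat lam e f φ s S) (hS : Dst lam e f S) {u q a : ℕ} {w w' : List Bool}
    (hu : u < sz s) (hq : q < sz s) (ha : a < sz s) (huS : S.P.head? = some (φ u))
    (haq : Nxt S.P (φ a) (φ q) ∨ Nxt S.Q (φ a) (φ q)) (hio : io f = φ u)
    (hc : chkQ u q w w' s = true) : Agr lam io e f (w.length + w'.length) S (φ q) := by
  unfold chkQ at hc
  cases h1 : exec xl w s with
  | none => rw [h1] at hc; simp at hc
  | some t =>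
    rw [h1] at hc
    simp only [Bool.and_eq_true, decide_eq_true_eq, beq_iff_eq, bne_iff_ne, ne_eq] at hc
    obtain ⟨⟨⟨⟨h2, h3⟩, h4⟩, h5, h6⟩, h7⟩ := hc
    obtain ⟨B, hB, hCon, hD, hP, hsz⟩ := h.cert hS h1 h2 h3
    obtain ⟨l, hl⟩ : ∃ l, t.P = u :: q :: l := by
      match ht : t.P with
      | [] => rw [ht] at h4; simp at h4
      | [x] => rw [ht] at h4; simp at h4
      | x :: y :: l =>
        rw [ht] at h4
        simp only [List.take_succ_cons, List.take_zero, List.cons.injEq, and_true] at h4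
        exact ⟨l, by rw [h4.1, h4.2]⟩
    have hn := List.nodup_append.1 hS.ok.nd
    have hPe : exL φ B s.P = S.P := congrArg St.P hB
    have hQe : exL φ B s.Q = S.Q := congrArg St.Q hB
    -- the block of `u`
    have hbu : B u = [] := by
      have h8 := h.head hS.ok hu huS
      obtain ⟨L, hL⟩ : ∃ L, S.P = φ u :: L := by
        cases hP' : S.P with
        | nil => rw [hP'] at huS; simp at huS
        | cons b L => rw [hP', List.head?_cons] at huS; exact ⟨L, by rw [Option.some.inj huS]⟩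
      obtain ⟨L', hL'⟩ : ∃ L, s.P = u :: L := by
        cases hP' : s.P with
        | nil => rw [hP'] at h8; simp at h8
        | cons b L => rw [hP', List.head?_cons] at h8; exact ⟨L, by rw [Option.some.inj h8]⟩
      refine blk_nil_of_head (φ := φ) (l := L') (L := L) ?_ ?_
      · rw [← hL', hPe]; exact hn.1
      · rw [← hL', hPe, hL]
    have hbq : B q = [] := by
      rcases haq with ⟨L₁, L₂, h9⟩ | ⟨L₁, L₂, h9⟩
      · obtain ⟨l₁, l₂, h10⟩ := adjb_iff (adjb_of h.sP h9 ((h.memP hS.ok ha).2 (by rw [h9]; simp))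
          ((h.memP hS.ok hq).2 (by rw [h9]; simp)) hn.1 h.injP)
        refine blk_nil_of_adj (φ := φ) (a := a) (l₁ := l₁) (l₂ := l₂) (L₁ := L₁) (L₂ := L₂) ?_ ?_
        · rw [← h10, hPe]; exact hn.1
        · rw [← h10, hPe, h9]
      · obtain ⟨l₁, l₂, h10⟩ := adjb_iff (adjb_of h.sQ h9 ((h.memQ hS.ok ha).2 (by rw [h9]; simp))
          ((h.memQ hS.ok hq).2 (by rw [h9]; simp)) hn.2.1 h.injQ)
        refine blk_nil_of_adj (φ := φ) (a := a) (l₁ := l₁) (l₂ := l₂) (L₁ := L₁) (L₂ := L₂) ?_ ?_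
        · rw [← h10, hQe]; exact hn.2.1
        · rw [← h10, hQe, h9]
    have hut : u < sz t := by omega
    have hlu : lam (φ u) = φ (xl u) := (h.lam u hu).symm
    have hxu := xl_lt h.evn hu
    have hne : ∀ x < sz s, x ≠ u → φ x ≠ φ u := fun x hx hxu he => hxu (h.inj x hx u hu he)
    have hne' : ∀ x < sz s, x ≠ xl u → φ x ≠ lam (φ u) := fun x hx hxu' he =>
      hxu' (h.inj x hx (xl u) hxu (by rw [he, hlu]))
    have hsz2 : 2 ≤ sz s := by have := h.ms; have := h.evn; omega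
    unfold dstb formb at h7
    simp only [Bool.and_eq_true] at h7
    obtain ⟨⟨⟨h71, h72⟩, h73⟩, h74⟩ := h7
    obtain ⟨A₁, hA₁⟩ := endb_iff h71
    obtain ⟨x, hx, hx'⟩ := prb_iff h73
    obtain ⟨z, hz, hz'⟩ := prb_iff h74
    unfold dl at hA₁ hx hx' hz hz'
    simp only at hA₁ hx hx' hz hz'
    have h0 : (0 : ℕ) ≠ u ∧ (0 : ℕ) ≠ xl u := by
      have : (0 : ℕ) ∈ t.P.filter (fun x => x != u && x != xl u) := by rw [hA₁]; simp
      exact (mem_dl.1 this).2
    have hlt : ∀ x, x ∈ t.P ++ t.Q → x < sz s := fun x hx => hsz ▸ hP.mem.1 hx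
    rw [mem_dl] at hx hx' hz hz'
    refine ⟨ex φ B t, exL φ B l, hCon, hD, ?_, ?_⟩
    · show exL φ B t.P = _
      rw [hl, exL_cons, exL_cons, hbu, hbq, hio]
      simp
    · rw [hio]
      refine Dst.del hD ?_ ?_ ?_ ?_ ?_ ?_ ?_
      · exact List.mem_append_left _ (mem_exL_of_mem (by rw [hl]; simp))
      · rw [← h.h0]; exact hne 0 (by omega) h0.1
      · rw [← h.h0]; exact hne' 0 (by omega) h0.2
      · exact hne _ (hsz ▸ hP.ms) h5
      · exact hne' _ (hsz ▸ hP.ms) h6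
      · refine ⟨φ x, mem_exL_of_mem hx.1, hne x (hlt x (by simp [hx.1])) hx.2.1,
          hne' x (hlt x (by simp [hx.1])) hx.2.2, ?_⟩
        rw [← h.lam x (hlt x (by simp [hx.1]))]
        exact mem_exL_of_mem hx'.1
      · refine ⟨φ z, mem_exL_of_mem hz.1, hne z (hlt z (by simp [hz.1])) hz.2.1,
          hne' z (hlt z (by simp [hz.1])) hz.2.2, ?_⟩
        rw [← h.lam z (hlt z (by simp [hz.1]))]
        exact mem_exL_of_mem hz'.1

end

end Pool.Agent.QuadEq.Star.N3a
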