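import Pool.Agent.Lib.MP_b7851d_lc.Star.Class
import Pool.Agent.Lib.MP_b7851d_lc.Star.N3a.Iface

/-!
# N3a: the labelled class is invariant, and the class after a deletion

Row CLS.  Then: a state is determined by a restriction and the successors of the deleted tokens,
and the class of the restriction off `u, lam u` is determined by the class and the token after `u`.
-/

namespace Pool.Agent.QuadEq.Star

section

variable {α : Type} [DecidableEq α] {lam io : α → α} {e f : α} {X : Finset α}

omit [DecidableEq α] in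
theorem nx_iff_adj {l : List α} {s t : α} : (∃ l₁ l₂, l = l₁ ++ s :: t :: l₂) ↔ Adj l s t :=
  adj_iff.symm

theorem gg_iff {S : St α} (hS : Ok lam e f S) {s t : α} : GG e f S s t ↔ GR e f S s t := by
  constructor
  · rintro (⟨h1, _, h3 | h3 | ⟨h3, h4⟩⟩ | ⟨h1, h2⟩ | ⟨h1, h2⟩)
    · exact Or.inl ⟨h1, Or.inl (nx_iff_adj.mp h3)⟩
    · exact Or.inl ⟨h1, Or.inr (nx_iff_adj.mp h3)⟩
    · exact Or.inr (Or.inl ⟨h3, h4⟩)
    · exact Or.inr (Or.inr (Or.inl ⟨h1, h2⟩))
    · exact Or.inr (Or.inr (Or.inr ⟨h1, h2.imp nx_iff_adj.mp nx_iff_adj.mp⟩))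
  · intro h
    rcases gr_iff.mp h with ⟨h1, h2⟩ | ⟨h1, h2⟩ | ⟨h1, h2⟩ | ⟨h1, h2⟩
    · refine Or.inl ⟨h1, h2.ne_f hS, ?_⟩
      rcases h2 with h2 | h2
      · exact Or.inl (nx_iff_adj.mpr h2)
      · exact Or.inr (Or.inl (nx_iff_adj.mpr h2))
    · refine Or.inl ⟨?_, ?_, Or.inr (Or.inr ⟨h1, h2⟩)⟩
      · rw [h1]; exact hS.pe.symm
      · rw [h1]; exact hS.ef
    · exact Or.inr (Or.inl ⟨h1, h2⟩)
    · exact Or.inr (Or.inr ⟨h1, h2.imp nx_iff_adj.mpr nx_iff_adj.mpr⟩)

theorem Link.mem {S : St α} (hS : Ok lam e f S) (h : Link lam e f io S) {y : α}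
    (hy : y ∈ S.P ++ S.Q) : io y ∈ S.P ++ S.Q ∧ io (io y) = y := by
  obtain ⟨x, hx⟩ := GR.surj hS hy
  have hx1 := hx.left hS
  obtain ⟨y', hy'⟩ := GR.total hS (hS.mem x hx1)
  have h1 := h x y y' hx hy'
  rw [h1]
  refine ⟨hy'.right, h (lam x) y' y hy' ?_⟩
  rw [hS.inv x hx1]
  exact hx

theorem Link.com {S : St α} (hS : Ok lam e f S) (h : Link lam e f io S) {x y : α}
    (g : GR e f S x y) : GR e f S (lam x) (io y) := by
  obtain ⟨y', hy'⟩ := GR.total hS (hS.mem x (g.left hS))
  rw [h x y y' g hy']
  exact hy'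

theorem Link.ne {S : St α} (hS : Ok lam e f S) (h : Link lam e f io S) {y : α}
    (hy : y ∈ S.P ++ S.Q) : io y ≠ y := by
  obtain ⟨x, hx⟩ := GR.surj hS hy
  intro h1
  have h2 := h.com hS hx
  rw [h1] at h2
  exact hS.ne x (hx.left hS) (h2.inj hS hx)

theorem Cls.link {S : St α} (hS : Ok lam e f S) (h : Cls lam io e f X S) :
    Link lam e f io S := by
  intro x y y' h1 h2
  exact (GR.unique hS ((gg_iff hS).mp (h.com x y ((gg_iff hS).mpr h1))) h2)

theorem cls_of_link {S : St α} (hS : Ok lam e f S) (h : Link lam e f io S)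
    (hX : ∀ x, x ∈ S.P ++ S.Q ↔ x ∈ X) : Cls lam io e f X S :=
  ⟨hX, fun x hx => (h.mem hS ((hX x).mpr hx)).2, fun x hx => (hX _).mp (h.mem hS ((hX x).mpr hx)).1,
    fun _ _ hst => (gg_iff hS).mpr (h.com hS ((gg_iff hS).mp hst))⟩

theorem Link.of_step {S S' : St α} {b : Bool} (hS : Ok lam e f S)
    (h : step lam b S = some S') (hl : Link lam e f io S') : Link lam e f io S := by
  cases b with
  | true => exact fun _ _ _ h1 h2 => hl _ _ _ ((gr_tS_iff hS h).mp h1) ((gr_tS_iff hS h).mp h2)
  | false =>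
    obtain ⟨h1, h2, h3⟩ := (bS_eq_some hS).mp h
    have hS' := step_ok hS h
    have h4 : Link lam f e io (S.swap lam) := fun _ _ _ g1 g2 =>
      (hl.swap hS') _ _ _ ((gr_tS_iff hS.swap h2).mp g1) ((gr_tS_iff hS.swap h2).mp g2)
    have h5 := h4.swap hS.swap
    rwa [hS.swap_swap] at h5

theorem Link.of_run {S S' : St α} (hS : Ok lam e f S) (h : Run lam S S')
    (hl : Link lam e f io S') : Link lam e f io S := by
  obtain ⟨b, k, hk⟩ := h
  induction k generalizing S with
  | zero => rw [Option.some.inj hk]; exact hl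
  | succ k ih =>
    rw [List.replicate_succ, exec] at hk
    obtain ⟨S₁, h1, h2⟩ := Option.bind_eq_some_iff.mp hk
    exact (ih (step_ok hS h1) h2).of_step hS h1

theorem cls_run_iff {S S' : St α} (hS : Ok lam e f S) (h : Run lam S S') :
    Cls lam io e f X S ↔ Cls lam io e f X S' := by
  have hm := h.mem_iff hS
  constructor
  · intro hc
    exact cls_of_link (h.ok hS) ((hc.link hS).run hS h) fun x => by rw [hm]; exact hc.tok x
  · intro hc
    exact cls_of_link hS ((hc.link (h.ok hS)).of_run hS h) fun x => by rw [← hm]; exact hc.tok x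

theorem cls_runs_iff {k : ℕ} {S S' : St α} (hS : Ok lam e f S) (h : Runs lam k S S') :
    Cls lam io e f X S ↔ Cls lam io e f X S' := by
  induction k generalizing S with
  | zero => rw [show S = S' from h]
  | succ k ih =>
    obtain ⟨S₁, h1, h2⟩ := h
    rw [cls_run_iff hS h1, ih (h1.ok hS) h2]

/-! ### A state is determined by a restriction and the successors of the deleted tokens -/

theorem eq_of_filter {Y : α → Bool} (A A' : List α) (x : α) (B : List α)
    (hn : (A ++ x :: B).Nodup) (hn' : (A' ++ x :: B).Nodup) (hf : A.filter Y = A'.filter Y)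
    (h : ∀ w y, Y w = false → (Adj (A ++ x :: B) w y ↔ Adj (A' ++ x :: B) w y)) : A = A' := by
  induction A using List.reverseRecOn generalizing A' x B with
  | nil =>
    rcases List.eq_nil_or_concat A' with rfl | ⟨C, c, rfl⟩
    · rfl
    · rw [List.concat_eq_append] at *
      have hc : Y c = false := by
        cases hc : Y c with
        | false => rfl
        | true =>
          rw [List.filter_append, List.filter_cons_of_pos hc] at hf
          simp at hf
      have h1 : Adj ((C ++ [c]) ++ x :: B) c x := adj_iff.mpr ⟨C, B, by simp⟩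
      have h2 := (h c x hc).mpr h1
      exact (not_adj_head hn rfl h2).elim
  | append_singleton C c ih =>
    have h1 : Adj ((C ++ [c]) ++ x :: B) c x := adj_iff.mpr ⟨C, B, by simp⟩
    cases hc : Y c with
    | false =>
      obtain ⟨A₁, B₁, h2⟩ := adj_iff.mp ((h c x hc).mp h1)
      have h3 : A' ++ x :: B = (A₁ ++ [c]) ++ x :: B₁ := by rw [h2]; simp
      obtain ⟨rfl, rfl⟩ := split_unique hn' h3
      rw [List.filter_append, List.filter_append, List.filter_cons_of_neg (by simp [hc])] at hf
      simp only [List.filter_nil, List.append_nil] at hf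
      have e1 : (C ++ [c]) ++ x :: B = C ++ c :: (x :: B) := by simp
      have e2 : (A₁ ++ [c]) ++ x :: B = A₁ ++ c :: (x :: B) := by simp
      rw [e1] at hn h
      rw [e2] at hn' h
      rw [ih A₁ c (x :: B) hn hn' hf h]
    | true =>
      rw [List.filter_append, List.filter_cons_of_pos hc, List.filter_nil] at hf
      rcases List.eq_nil_or_concat A' with rfl | ⟨D, d, rfl⟩
      · simp at hf
      · rw [List.concat_eq_append] at *
        have h4 : Adj ((D ++ [d]) ++ x :: B) d x := adj_iff.mpr ⟨D, B, by simp⟩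
        cases hd : Y d with
        | false =>
          have h5 := ((h d x hd).mpr h4).unique_left hn h1
          rw [h5, hc] at hd
          exact Bool.noConfusion hd
        | true =>
          rw [List.filter_append, List.filter_cons_of_pos hd, List.filter_nil] at hf
          obtain ⟨hf1, hf2⟩ := List.append_inj' hf rfl
          obtain rfl := (List.cons.inj hf2).1
          have e1 : (C ++ [c]) ++ x :: B = C ++ c :: (x :: B) := by simp
          have e2 : (D ++ [c]) ++ x :: B = D ++ c :: (x :: B) := by simp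
          rw [e1] at hn h
          rw [e2] at hn' h
          rw [ih D c (x :: B) hn hn' hf1 h]

theorem eq_of_res {Y : α → Bool} {S S' : St α} (hS : Ok lam e f S) (hS' : Ok lam e f S')
    (hY : Cl lam e S Y) (hY' : Cl lam e S' Y) (hr : S.res Y = S'.res Y)
    (h : ∀ w y, Y w = false → (GR e f S w y ↔ GR e f S' w y)) : S = S' := by
  have hf : Y f = true := (hY.swap hS).e
  have hAdj : ∀ {S : St α}, Ok lam e f S → Cl lam e S Y → ∀ w y, Y w = false →
      (Adj (S.P ++ S.Q) w y ↔ GR e f S w y) := by
    intro S hS hY w y hw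
    have hne : ∀ z, Y z = true → w ≠ z := fun z hz h => by
      rw [h, hz] at hw
      exact Bool.noConfusion hw
    rw [adj_append, gr_iff]
    constructor
    · rintro (h | ⟨h, _⟩ | h)
      · exact Or.inl ⟨hne _ hY.m, Or.inl h⟩
      · rw [hS.le] at h
        exact absurd (Option.some.inj h).symm (hne _ hY.e)
      · exact Or.inl ⟨hne _ hY.m, Or.inr h⟩
    · rintro (⟨_, h | h⟩ | ⟨h, _⟩ | ⟨h, _⟩ | ⟨h, _⟩)
      · exact Or.inl h
      · exact Or.inr (Or.inr h)
      · exact absurd h (hne _ hY.e)
      · exact absurd h (hne _ hY.m)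
      · exact absurd h (hne _ hf)
  have hP : S.P.filter Y = S'.P.filter Y := congrArg St.P hr
  have hQ : S.Q.filter Y = S'.Q.filter Y := congrArg St.Q hr
  have hm : (S.res Y).m = (S'.res Y).m := congrArg St.m hr
  change S.m = S'.m at hm
  have last : ∀ {l : List α} {x : α}, l.getLast? = some x → ∃ A, l = A ++ [x] := by
    intro l x h
    rcases List.eq_nil_or_concat l with rfl | ⟨A, a, rfl⟩
    · simp at h
    · rw [List.concat_eq_append, List.getLast?_concat] at h
      exact ⟨A, by rw [List.concat_eq_append, Option.some.inj h]⟩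
  obtain ⟨A, hA⟩ := last hS.le
  obtain ⟨A', hA'⟩ := last hS'.le
  obtain ⟨B, hB⟩ := last hS.lf
  obtain ⟨B', hB'⟩ := last hS'.lf
  have hBf : B.filter Y = B'.filter Y := by
    rw [hB, hB', List.filter_append, List.filter_append, List.filter_cons_of_pos hf,
      List.filter_nil] at hQ
    exact (List.append_inj' hQ rfl).1
  have h1 : S.P ++ S.Q = (S.P ++ B) ++ f :: [] := by rw [List.append_assoc, ← hB]
  have h2 : S'.P ++ S'.Q = (S'.P ++ B') ++ f :: [] := by rw [List.append_assoc, ← hB']
  have h3 : S.P ++ B = S'.P ++ B' := by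
    refine eq_of_filter (Y := Y) (S.P ++ B) (S'.P ++ B') f [] ?_ ?_ ?_ ?_
    · rw [← h1]; exact hS.nd
    · rw [← h2]; exact hS'.nd
    · rw [List.filter_append, List.filter_append, hP, hBf]
    · intro w y hw
      rw [← h1, ← h2, hAdj hS hY w y hw, hAdj hS' hY' w y hw]
      exact h w y hw
  have h4 : A ++ e :: B = A' ++ e :: B' := by
    have : ∀ (C D : List α), (C ++ [e]) ++ D = C ++ e :: D := by simp
    rw [← this A B, ← this A' B', ← hA, ← hA', h3]
  have h5 : (A ++ e :: B).Nodup := by
    have h6 := hS.nd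
    rw [hA, hB, ← List.append_assoc] at h6
    have := (List.nodup_append.mp h6).1
    simpa using this
  obtain ⟨rfl, rfl⟩ := split_unique h5 h4
  obtain ⟨P, Q, m⟩ := S
  obtain ⟨P', Q', m'⟩ := S'
  simp only at hA hA' hB hB' hm
  rw [hA, hA', hB, hB', hm]

/-! ### Successors in a restriction -/

/-- A chain of deleted tokens between two neighbours. -/
inductive Ch (Y : α → Bool) (S : St α) : α → α → Prop
  | one {x y : α} : AdjS S x y → Y y = true → Ch Y S x y
  | cons {x w y : α} : AdjS S x w → Y w = false → Ch Y S w y → Ch Y S x y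

omit [DecidableEq α] in
theorem Ch.seg {Y : α → Bool} {S : St α} (hS : Ok lam e f S) {x y : α} (h : Ch Y S x y) :
    ∃ Z, Z.filter Y = [] ∧ Y y = true ∧ ((∃ A B, S.P = A ++ x :: (Z ++ y :: B)) ∨
      ∃ A B, S.Q = A ++ x :: (Z ++ y :: B)) := by
  induction h with
  | one h hy =>
    refine ⟨[], rfl, hy, ?_⟩
    rcases h with h | h
    · obtain ⟨A, B, h⟩ := adj_iff.mp h
      exact Or.inl ⟨A, B, h⟩
    · obtain ⟨A, B, h⟩ := adj_iff.mp h
      exact Or.inr ⟨A, B, h⟩
  | @cons x w y h hw _ ih =>
    obtain ⟨Z, hZ, hy, ih⟩ := ih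
    refine ⟨w :: Z, by rw [List.filter_cons_of_neg (by simp [hw]), hZ], hy, ?_⟩
    have hnP := hS.ndP
    have hnQ := hS.ndQ
    rcases h with h | h <;> rcases ih with ⟨A', B', h'⟩ | ⟨A', B', h'⟩
    · obtain ⟨A, B, h1⟩ := adj_iff.mp h
      have h2 : S.P = (A ++ [x]) ++ w :: B := by rw [h1]; simp
      rw [h2] at hnP h'
      obtain ⟨_, h3⟩ := split_unique hnP h'
      exact Or.inl ⟨A, B', by rw [h1, h3]; simp⟩
    · exact (hS.disj h.right (by rw [h']; simp)).elim
    · exact (hS.disj (x := w) (by rw [h']; simp) h.right).elim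
    · obtain ⟨A, B, h1⟩ := adj_iff.mp h
      have h2 : S.Q = (A ++ [x]) ++ w :: B := by rw [h1]; simp
      rw [h2] at hnQ h'
      obtain ⟨_, h3⟩ := split_unique hnQ h'
      exact Or.inr ⟨A, B', by rw [h1, h3]; simp⟩

omit [DecidableEq α] in
theorem Ch.adj {Y : α → Bool} {S : St α} (hS : Ok lam e f S) {x y : α} (h : Ch Y S x y)
    (hx : Y x = true) : AdjS (S.res Y) x y := by
  obtain ⟨Z, hZ, hy, h⟩ := h.seg hS
  rcases h with ⟨A, B, h⟩ | ⟨A, B, h⟩
  · refine Or.inl (adj_iff.mpr ⟨A.filter Y, B.filter Y, ?_⟩)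
    show S.P.filter Y = _
    rw [h, List.filter_append, List.filter_cons_of_pos hx, List.filter_append, hZ,
      List.filter_cons_of_pos hy, List.nil_append]
  · refine Or.inr (adj_iff.mpr ⟨A.filter Y, B.filter Y, ?_⟩)
    show S.Q.filter Y = _
    rw [h, List.filter_append, List.filter_cons_of_pos hx, List.filter_append, hZ,
      List.filter_cons_of_pos hy, List.nil_append]

omit [DecidableEq α] in
theorem Ch.headP {Y : α → Bool} {S : St α} (hS : Ok lam e f S) {w y : α} (h : Ch Y S w y)
    (hw : Y w = false) (hh : S.P.head? = some w) : (S.res Y).P.head? = some y := by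
  obtain ⟨Z, hZ, hy, h⟩ := h.seg hS
  have hnP := hS.ndP
  rcases h with ⟨A, B, h⟩ | ⟨A, B, h⟩
  · show (S.P.filter Y).head? = some y
    cases A with
    | nil =>
      rw [h, List.nil_append, List.filter_cons_of_neg (by simp [hw]), List.filter_append, hZ,
        List.filter_cons_of_pos hy]
      rfl
    | cons a A =>
      rw [h, List.cons_append, List.head?_cons] at hh
      rw [h, Option.some.inj hh] at hnP
      simp at hnP
  · exact (hS.disj (List.mem_of_head? hh) (by rw [h]; simp)).elim

omit [DecidableEq α] in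
theorem Ch.headQ {Y : α → Bool} {S : St α} (hS : Ok lam e f S) {w y : α} (h : Ch Y S w y)
    (hw : Y w = false) (hh : S.Q.head? = some w) : (S.res Y).Q.head? = some y := by
  obtain ⟨Z, hZ, hy, h⟩ := h.seg hS
  have hnQ := hS.ndQ
  rcases h with ⟨A, B, h⟩ | ⟨A, B, h⟩
  · exact (hS.disj (x := w) (by rw [h]; simp) (List.mem_of_head? hh)).elim
  · show (S.Q.filter Y).head? = some y
    cases A with
    | nil =>
      rw [h, List.nil_append, List.filter_cons_of_neg (by simp [hw]), List.filter_append, hZ,
        List.filter_cons_of_pos hy]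
      rfl
    | cons a A =>
      rw [h, List.cons_append, List.head?_cons] at hh
      rw [h, Option.some.inj hh] at hnQ
      simp at hnQ

/-- A chain of deleted tokens for the successor relation of a state. -/
inductive GCh (e f : α) (Y : α → Bool) (S : St α) : α → α → Prop
  | one {x y : α} : GR e f S x y → Y y = true → GCh e f Y S x y
  | cons {x w y : α} : GR e f S x w → Y w = false → GCh e f Y S w y → GCh e f Y S x y

theorem GR.adj {Y : α → Bool} {S : St α} (hS : Ok lam e f S) (hY : Cl lam e S Y) {w y : α}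
    (h : GR e f S w y) (hw : Y w = false) : AdjS S w y := by
  have hf : Y f = true := (hY.swap hS).e
  have hne : ∀ z, Y z = true → w ≠ z := fun z hz h => by
    rw [h, hz] at hw
    exact Bool.noConfusion hw
  rcases gr_iff.mp h with ⟨_, h2⟩ | ⟨h1, _⟩ | ⟨h1, _⟩ | ⟨h1, _⟩
  · exact h2
  · exact absurd h1 (hne _ hY.e)
  · exact absurd h1 (hne _ hY.m)
  · exact absurd h1 (hne _ hf)

theorem GCh.ch {Y : α → Bool} {S : St α} (hS : Ok lam e f S) (hY : Cl lam e S Y) {w y : α}
    (h : GCh e f Y S w y) (hw : Y w = false) : Ch Y S w y := by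
  induction h with
  | one h hy => exact Ch.one (h.adj hS hY hw) hy
  | cons h hw' _ ih => exact Ch.cons (h.adj hS hY hw) hw' (ih hw')

theorem GCh.gr {Y : α → Bool} {S : St α} (hS : Ok lam e f S) (hY : Cl lam e S Y) {x y : α}
    (h : GCh e f Y S x y) (hx : Y x = true) : GR e f (S.res Y) x y := by
  cases h with
  | one h hy =>
    rcases gr_iff.mp h with ⟨h1, h2⟩ | ⟨h1, h2⟩ | ⟨h1, h2⟩ | ⟨h1, h2⟩
    · exact Or.inl ⟨h1, (Ch.one h2 hy).adj hS hx⟩
    · refine Or.inr (Or.inl ⟨h1, ?_⟩)
      show (S.P.filter Y).head? = some y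
      cases hP : S.P with
      | nil => rw [hP] at h2; simp at h2
      | cons a l =>
        rw [hP, List.head?_cons] at h2
        rw [Option.some.inj h2, List.filter_cons_of_pos hy]
        rfl
    · refine Or.inr (Or.inr (Or.inl ⟨h1, ?_⟩))
      show (S.Q.filter Y).head? = some y
      cases hQ : S.Q with
      | nil => rw [hQ] at h2; simp at h2
      | cons a l =>
        rw [hQ, List.head?_cons] at h2
        rw [Option.some.inj h2, List.filter_cons_of_pos hy]
        rfl
    · exact Or.inr (Or.inr (Or.inr ⟨h1, (Ch.one h2 hy).adj hS hY.m⟩))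
  | cons h hw h' =>
    have hc := h'.ch hS hY hw
    rcases gr_iff.mp h with ⟨h1, h2⟩ | ⟨h1, h2⟩ | ⟨h1, h2⟩ | ⟨h1, h2⟩
    · exact Or.inl ⟨h1, (Ch.cons h2 hw hc).adj hS hx⟩
    · exact Or.inr (Or.inl ⟨h1, hc.headP hS hw h2⟩)
    · exact Or.inr (Or.inr (Or.inl ⟨h1, hc.headQ hS hw h2⟩))
    · exact Or.inr (Or.inr (Or.inr ⟨h1, (Ch.cons h2 hw hc).adj hS hY.m⟩))

/-! ### The class after the deletion of `u` and `lam u` -/

/-- The set of the tokens other than `u` and `v`. -/
def offY (u v : α) : α → Bool := fun x => !(decide (x = u) || decide (x = v))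

theorem offY_false {u v x : α} : offY u v x = false ↔ x = u ∨ x = v := by
  unfold offY
  simp [or_iff_not_imp_left]

theorem offY_true {u v x : α} : offY u v x = true ↔ x ≠ u ∧ x ≠ v := by
  unfold offY
  simp

theorem del_eq {u v : α} {S : St α} : S.del u v = S.res (offY u v) := rfl

/-- The partner map of the class after the deletion of `u = io f` and `lam u`, where `q` follows
`u`. -/
def delIo (lam io : α → α) (f q : α) (y : α) : α :=
  if q = lam (io f) then (if y = io (lam (io f)) then f else if y = f then io (lam (io f)) else io y)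
  else if y = f then q else if y = q then f else if y = io q then io (lam (io f))
  else if y = io (lam (io f)) then io q else io y

theorem offCl {S : St α} (hS : Ok lam e f S) {u : α} (hu : u ∈ S.P ++ S.Q) (hue : u ≠ e)
    (huf : u ≠ f) (hum : u ≠ S.m) (hul : u ≠ lam S.m) : Cl lam e S (offY u (lam u)) := by
  refine ⟨fun x hx h => ?_, ?_, ?_⟩
  · rw [offY_true] at h ⊢
    refine ⟨fun h' => h.2 ?_, fun h' => h.1 (hS.lam_inj hx hu h')⟩
    rw [← hS.inv x hx, h']
  · rw [offY_true]
    refine ⟨hue.symm, fun h => huf ?_⟩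
    rw [← hS.inv u hu, ← h, hS.lef]
  · rw [offY_true]
    refine ⟨hum.symm, fun h => hul ?_⟩
    rw [h, hS.inv u hu]

omit [DecidableEq α] in
theorem gr_ff {S : St α} (hD : ∃ B, S.Q = B ++ [S.m, f]) : GR e f S f f := by
  obtain ⟨B, hB⟩ := hD
  exact Or.inr (Or.inr (Or.inr ⟨rfl, Or.inr (adj_iff.mpr ⟨B, [], hB⟩)⟩))

/-- The class after the deletion. -/
theorem link_del {S : St α} (hS : Ok lam e f S) (hl : Link lam e f io S) (hff : GR e f S f f)
    {q : α} {l : List α} (hP : S.P = io f :: q :: l)
    (hY : Cl lam e S (offY (io f) (lam (io f)))) :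
    Link lam e f (delIo lam io f q) (S.res (offY (io f) (lam (io f)))) := by
  have hfX : f ∈ S.P ++ S.Q := List.mem_append_right _ hS.fQ
  have hYe := hY.e
  have hYf : offY (io f) (lam (io f)) f = true := (hY.swap hS).e
  have hio : ∀ y ∈ S.P ++ S.Q, io (io y) = y := fun y hy => (hl.mem hS hy).2
  have hioX : ∀ y ∈ S.P ++ S.Q, io y ∈ S.P ++ S.Q := fun y hy => (hl.mem hS hy).1
  have huX : io f ∈ S.P ++ S.Q := hioX f hfX
  have hiou : io (io f) = f := hio f hfX
  have hvX : lam (io f) ∈ S.P ++ S.Q := hS.mem _ huX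
  have hlv : lam (lam (io f)) = io f := hS.inv _ huX
  have hR := hS.res hY
  rw [offY_true] at hYe hYf
  -- the basic values of `g`
  have geu : GR e f S e (io f) := Or.inr (Or.inl ⟨rfl, by rw [hP]; rfl⟩)
  have hum : io f ≠ S.m := (offY_true.mp hY.m).1.symm
  have guq : GR e f S (io f) q := Or.inl ⟨hum, Or.inl (by rw [hP]; exact Or.inl ⟨rfl, rfl⟩)⟩
  have gvr : GR e f S (lam (io f)) (io q) := hl.com hS guq
  have hqX := guq.right
  have hvf : lam (io f) ≠ f := hYf.2.symm
  have hve : lam (io f) ≠ e := hYe.2.symm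
  have huf : io f ≠ f := hYf.1.symm
  have hue : io f ≠ e := hYe.1.symm
  have hqu : q ≠ io f := fun h => by
    rw [h] at guq
    have := guq.inj hS geu
    exact hue this
  have hqf : q ≠ f := fun h => by
    rw [h] at guq
    exact huf (guq.inj hS hff)
  have hiov_u : io (lam (io f)) ≠ io f := fun h => by
    have := hio _ hvX
    rw [h, hiou] at this
    exact hvf this.symm
  have hiov_v : io (lam (io f)) ≠ lam (io f) := hl.ne hS hvX
  have hiov_f : io (lam (io f)) ≠ f := fun h => by
    have := hio _ hvX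
    rw [h] at this
    exact hS.ne _ huX this.symm
  have hYiov : offY (io f) (lam (io f)) (io (lam (io f))) = true := offY_true.mpr ⟨hiov_u, hiov_v⟩
  have hlame : lam e = f := hS.lef
  have hlamf : lam f = e := hS.lfe
  intro x y y' hxy hxy'
  have hx := hxy.left hR
  have hxX := (mem_res.mp hx).1
  have hYx := (mem_res.mp hx).2
  have hYlx := hY.lam x hxX hYx
  have hx2 := offY_true.mp hYx
  have hlx2 := offY_true.mp hYlx
  by_cases hqv : q = lam (io f)
  · -- `u v` are the first two tokens
    have guv : GR e f S (io f) (lam (io f)) := by rw [← hqv]; exact guq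
    have gviv : GR e f S (lam (io f)) (io (lam (io f))) := by
      have := gvr
      rwa [hqv] at this
    have ce : GCh e f (offY (io f) (lam (io f))) S e (io (lam (io f))) :=
      GCh.cons geu (offY_false.mpr (Or.inl rfl)) (GCh.cons guv (offY_false.mpr (Or.inr rfl))
        (GCh.one gviv hYiov))
    have cf : GCh e f (offY (io f) (lam (io f))) S f f := GCh.one hff (offY_true.mpr hYf)
    have re := ce.gr hS hY (offY_true.mpr hYe)
    have rf := cf.gr hS hY (offY_true.mpr hYf)
    unfold delIo
    rw [if_pos hqv]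
    by_cases hxe : x = e
    · subst hxe
      rw [hlame] at hxy'
      rw [hxy.unique hR re, hxy'.unique hR rf, if_pos rfl]
    · by_cases hxf : x = f
      · subst hxf
        rw [hlamf] at hxy'
        rw [hxy.unique hR rf, hxy'.unique hR re, if_neg hiov_f.symm, if_pos rfl]
      · obtain ⟨y0, g0⟩ := GR.total hS hxX
        have g1 := hl.com hS g0
        have hy0u : y0 ≠ io f := fun h => hxe ((h ▸ g0).inj hS geu)
        have hy0v : y0 ≠ lam (io f) := fun h => hx2.1 ((h ▸ g0).inj hS guv)
        have hy1u : io y0 ≠ io f := fun h => by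
          have h2 := (h ▸ g1).inj hS geu
          exact hxf (by rw [← hS.inv x hxX, h2, hlame])
        have hy1v : io y0 ≠ lam (io f) := fun h => hlx2.1 ((h ▸ g1).inj hS guv)
        have r0 := (GCh.one g0 (offY_true.mpr ⟨hy0u, hy0v⟩)).gr hS hY hYx
        have r1 := (GCh.one g1 (offY_true.mpr ⟨hy1u, hy1v⟩)).gr hS hY hYlx
        rw [hxy.unique hR r0, hxy'.unique hR r1, if_neg, if_neg]
        · rintro rfl
          exact hxf (g0.inj hS hff)
        · rintro rfl
          exact hx2.2 (g0.inj hS gviv)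
  · have hYq : offY (io f) (lam (io f)) q = true := offY_true.mpr ⟨hqu, hqv⟩
    have hru : io q ≠ io f := fun h => by
      rw [h] at gvr
      exact hve (gvr.inj hS geu)
    have hrv : io q ≠ lam (io f) := fun h => by
      rw [h] at gvr
      rcases gr_iff.mp gvr with ⟨_, h2⟩ | ⟨h1, _⟩ | ⟨h1, _⟩ | ⟨h1, _⟩
      · have : ∀ l : List α, l.Nodup → ¬ Adj l (lam (io f)) (lam (io f)) := by
          intro l hn h
          obtain ⟨A, B, rfl⟩ := adj_iff.mp h
          have := (List.nodup_append.mp hn).2.1
          simp at this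
        rcases h2 with h2 | h2
        · exact this _ hS.ndP h2
        · exact this _ hS.ndQ h2
      · exact hve h1
      · exact (offY_true.mp hY.m).2 h1.symm
      · exact hvf h1
    have hYr : offY (io f) (lam (io f)) (io q) = true := offY_true.mpr ⟨hru, hrv⟩
    have hrf : io q ≠ f := fun h => hqu (by rw [← hio q hqX, h])
    have hrq : io q ≠ q := hl.ne hS hqX
    have hiov_q : io (lam (io f)) ≠ q := fun h => hrv (by rw [← h, hio _ hvX])
    have hiov_r : io (lam (io f)) ≠ io q := fun h => hqv (by rw [← hio q hqX, ← h, hio _ hvX])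
    have ce : GCh e f (offY (io f) (lam (io f))) S e q :=
      GCh.cons geu (offY_false.mpr (Or.inl rfl)) (GCh.one guq hYq)
    have cf : GCh e f (offY (io f) (lam (io f))) S f f := GCh.one hff (offY_true.mpr hYf)
    have re := ce.gr hS hY (offY_true.mpr hYe)
    have rf := cf.gr hS hY (offY_true.mpr hYf)
    unfold delIo
    rw [if_neg hqv]
    by_cases hxe : x = e
    · subst hxe
      rw [hlame] at hxy'
      rw [hxy.unique hR re, hxy'.unique hR rf, if_neg hqf, if_pos rfl]
    · by_cases hxf : x = f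
      · subst hxf
        rw [hlamf] at hxy'
        rw [hxy.unique hR rf, hxy'.unique hR re, if_pos rfl]
      · obtain ⟨y0, g0⟩ := GR.total hS hxX
        have g1 := hl.com hS g0
        have hy0u : y0 ≠ io f := fun h => hxe ((h ▸ g0).inj hS geu)
        have hy1u : io y0 ≠ io f := fun h => by
          have h2 := (h ▸ g1).inj hS geu
          exact hxf (by rw [← hS.inv x hxX, h2, hlame])
        by_cases hy0v : y0 = lam (io f)
        · -- `x` is followed by `v`
          rw [hy0v] at g0 g1
          have r0 := (GCh.cons g0 (offY_false.mpr (Or.inr rfl)) (GCh.one gvr hYr)).gr hS hY hYx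
          have r1 := (GCh.one g1 hYiov).gr hS hY hYlx
          rw [hxy.unique hR r0, hxy'.unique hR r1, if_neg hrf, if_neg hrq, if_pos rfl]
        · by_cases hy1v : io y0 = lam (io f)
          · have hy0 : y0 = io (lam (io f)) := by rw [← hio y0 g0.right, hy1v]
            rw [hy1v] at g1
            rw [hy0] at g0
            have r0 := (GCh.one g0 hYiov).gr hS hY hYx
            have r1 := (GCh.cons g1 (offY_false.mpr (Or.inr rfl)) (GCh.one gvr hYr)).gr hS hY hYlx
            rw [hxy.unique hR r0, hxy'.unique hR r1, if_neg hiov_f, if_neg hiov_q, if_neg hiov_r,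
              if_pos rfl]
          · have r0 := (GCh.one g0 (offY_true.mpr ⟨hy0u, hy0v⟩)).gr hS hY hYx
            have r1 := (GCh.one g1 (offY_true.mpr ⟨hy1u, hy1v⟩)).gr hS hY hYlx
            rw [hxy.unique hR r0, hxy'.unique hR r1, if_neg, if_neg, if_neg, if_neg]
            · rintro rfl
              exact hy1v (hio _ hvX)
            · rintro rfl
              exact hx2.2 (g0.inj hS gvr)
            · rintro rfl
              exact hx2.1 (g0.inj hS guq)
            · rintro rfl
              exact hxf (g0.inj hS hff)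

end

/-- row CLS -/
theorem clsStm : ClsStm := fun _ _ _ _ _ _ _ _ _ hS h => cls_run_iff hS h

end Pool.Agent.QuadEq.Star
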