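import Pool.Agent.Lib.MP_b7851d_lc.Star.N3a.Cert

/-!
# N3a: the patterns of the rows A, B and C2
-/

namespace Pool.Agent.QuadEq.Star.N3a

/-- test of row A, tokens q, a, u -/
def tA (c : Ctx) : Bool := formb c.1 && match c.2 with
  | [u] => c.1.P.head? == some u
  | [_, u] => c.1.P.head? == some u
  | [q, a, u] => c.1.P.head? == some u && adS c.1 a q && adS c.1 (xl a) (xl q) &&
    q != 0 && q != 1 && q != u && q != xl u
  | _ => true

/-- the patterns of row A, tokens q, a, u -/
def enA : List Ctx :=
  nxt bbC tA (nxt ttC tA (nxt stepC tA (nxt stepC tA (nxt stepC tA [(st0, [])]))))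

/-- test of row B, tokens q, a, u -/
def tB (c : Ctx) : Bool := formb c.1 && match c.2 with
  | [u] => c.1.P.head? == some u && c.1.Q.head? == some (xl u)
  | [_, u] => c.1.P.head? == some u && c.1.Q.head? == some (xl u)
  | [q, a, u] => c.1.P.head? == some u && c.1.Q.head? == some (xl u) && adS c.1 a q &&
    q != 0 && q != 1 && q != u && q != xl u
  | _ => true

/-- the patterns of row B, tokens q, a, u -/
def enB : List Ctx :=
  nxt bbC tB (nxt ttC tB (nxt stepC tB (nxt stepC tB (nxt stepC tB [(st0, [])]))))

/-- test of row C2, tokens a, u -/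
def tC (c : Ctx) : Bool := formb c.1 && match c.2 with
  | [u] => c.1.P.head? == some u
  | [a, u] => c.1.P.head? == some u && adS c.1 a (xl u)
  | _ => true

/-- the patterns of row C2, tokens a, u -/
def enC : List Ctx := nxt stepC tC (nxt stepC tC [(gad, [])])

end Pool.Agent.QuadEq.Star.N3a
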