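import Pool.Agent.Lib.MP_b7851d_lc.Star.N3a.CLift

/-!
# N3a: enumeration of the patterns with given roles

`stepC` gives a role to a token of the state: the token is in the pattern or a new pair is inserted
anywhere.  `Rol` says that a pattern with roles is really in the state.
-/

set_option linter.unusedSectionVars false

namespace Pool.Agent.QuadEq.Star.N3a

/-! ### Enumeration -/

/-- All words which arise by the insertion of `k`. -/
def ins1 (k : ℕ) : List ℕ → List (List ℕ)
  | [] => [[k]]
  | a :: l => (k :: a :: l) :: (ins1 k l).map (a :: ·)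

/-- All states which arise by the insertion of `k`. -/
def insS (k : ℕ) (s : St ℕ) : List (St ℕ) :=
  (ins1 k s.P).map (fun l => ⟨l, s.Q, s.m⟩) ++ (ins1 k s.Q).map (fun l => ⟨s.P, l, s.m⟩)

/-- The number of tokens. -/
def sz (s : St ℕ) : ℕ := s.P.length + s.Q.length

/-- All states which arise by the insertion of a new pair. -/
def insP (s : St ℕ) : List (St ℕ) := (insS (sz s) s).flatMap (insS (sz s + 1))

/-- `b` comes right after `a`. -/
def adjb (a b : ℕ) : List ℕ → Bool
  | [] => false
  | [_] => false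
  | x :: y :: l => (x == a && y == b) || adjb a b (y :: l)

/-- The word ends with `a`, `b`. -/
def endb (a b : ℕ) : List ℕ → Bool
  | [] => false
  | [_] => false
  | [x, y] => x == a && y == b
  | _ :: y :: z :: l => endb a b (y :: z :: l)

/-- `b` comes after `a`. -/
def befb (a b : ℕ) : List ℕ → Bool
  | [] => false
  | x :: l => (x == a && l.contains b) || befb a b l

/-- The form of a D-state. -/
def formb (s : St ℕ) : Bool := endb (xl s.m) 0 s.P && endb s.m 1 s.Q

/-- A pair inside the word. -/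
def prb (l : List ℕ) : Bool := l.any fun x => l.contains (xl x)

/-- A pattern with a list of tokens. -/
abbrev Ctx := St ℕ × List ℕ

/-- A new token is named: it is in the pattern or it is new. -/
def stepC (c : Ctx) : List Ctx :=
  (List.range (sz c.1)).map (fun x => (c.1, x :: c.2)) ++
    (insP c.1).map (fun s => (s, sz c.1 :: c.2))

/-- A pair is added on the top unless there is one. -/
def ttC (c : Ctx) : List Ctx :=
  if prb c.1.P then [c] else
    ((insP c.1).filter fun s => befb (sz c.1) (sz c.1 + 1) s.P).map (·, c.2)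

/-- A pair is added on the bottom unless there is one. -/
def bbC (c : Ctx) : List Ctx :=
  if prb c.1.Q then [c] else
    ((insP c.1).filter fun s => befb (sz c.1) (sz c.1 + 1) s.Q).map (·, c.2)

/-- The pattern of the two pairs which are always there. -/
def st0 : St ℕ := ⟨[3, 0], [2, 1], 2⟩

/-- adjacent -/
def adS (s : St ℕ) (a b : ℕ) : Bool := adjb a b s.P || adjb a b s.Q

/-! ### Sublists -/

section sub

variable {α : Type} [DecidableEq α] {φ : ℕ → α}

/-- Injective on a word. -/
def InjL (φ : ℕ → α) (l : List ℕ) : Prop := ∀ x ∈ l, ∀ y ∈ l, φ x = φ y → x = y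

theorem InjL.tail {a : ℕ} {l : List ℕ} (h : InjL φ (a :: l)) : InjL φ l :=
  fun x hx y hy => h x (List.mem_cons_of_mem _ hx) y (List.mem_cons_of_mem _ hy)

theorem map_sub_cons {l : List ℕ} {z : α} {L : List α} (h : (l.map φ).Sublist (z :: L)) :
    (l.map φ).Sublist L ∨ ∃ x l', l = x :: l' ∧ φ x = z ∧ (l'.map φ).Sublist L := by
  rcases List.sublist_cons_iff.1 h with h | ⟨r, h1, h2⟩
  · exact Or.inl h
  · cases l with
    | nil => simp at h1
    | cons x l' =>
      rw [List.map_cons] at h1
      obtain ⟨rfl, rfl⟩ := List.cons.inj h1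
      exact Or.inr ⟨x, l', rfl, rfl, h2⟩

theorem head_of {l : List ℕ} {b : ℕ} {L : List α} (h : (l.map φ).Sublist (φ b :: L))
    (hb : b ∈ l) (hn : (φ b :: L).Nodup) (hi : InjL φ l) :
    ∃ l', l = b :: l' ∧ (l'.map φ).Sublist L := by
  rcases map_sub_cons h with h1 | ⟨x, l', rfl, h2, h3⟩
  · exact absurd (h1.subset (List.mem_map_of_mem hb)) (List.nodup_cons.1 hn).1
  · have := hi x (by simp) b hb h2
    subst this
    exact ⟨l', rfl, h3⟩

theorem adjb_cons {a b x : ℕ} {l : List ℕ} (h : adjb a b l = true) : adjb a b (x :: l) = true := by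
  cases l with
  | nil => simp [adjb] at h
  | cons y l => rw [adjb, h, Bool.or_true]

theorem adjb_of {a b : ℕ} : ∀ {L : List α} {l : List ℕ} {L₁ L₂ : List α},
    (l.map φ).Sublist L → L = L₁ ++ φ a :: φ b :: L₂ → a ∈ l → b ∈ l → L.Nodup → InjL φ l →
    adjb a b l = true
  | [], l, L₁, L₂, _, h, _, _, _, _ => by simp at h
  | z :: L, l, L₁, L₂, h, hL, ha, hb, hn, hi => by
    have hn1 := List.nodup_cons.1 hn
    cases L₁ with
    | nil =>
      rw [List.nil_append] at hL
      obtain ⟨rfl, rfl⟩ := List.cons.inj hL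
      obtain ⟨l', rfl, h1⟩ := head_of h ha hn hi
      have hab : b ≠ a := by
        rintro rfl
        simp at hn
      have hb' : b ∈ l' := by
        rcases List.mem_cons.1 hb with h2 | h2
        · exact absurd h2 hab
        · exact h2
      obtain ⟨l'', rfl, -⟩ := head_of h1 hb' hn1.2 hi.tail
      simp [adjb]
    | cons z' L₁ =>
      rw [List.cons_append] at hL
      obtain ⟨rfl, rfl⟩ := List.cons.inj hL
      rcases map_sub_cons h with h1 | ⟨x, l', rfl, rfl, h3⟩
      · exact adjb_of h1 rfl ha hb hn1.2 hi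
      · have hxa : a ≠ x := by
          rintro rfl
          exact hn1.1 (by simp)
        have hxb : b ≠ x := by
          rintro rfl
          exact hn1.1 (by simp)
        have ha' : a ∈ l' := by
          rcases List.mem_cons.1 ha with h2 | h2
          · exact absurd h2 hxa
          · exact h2
        have hb' : b ∈ l' := by
          rcases List.mem_cons.1 hb with h2 | h2
          · exact absurd h2 hxb
          · exact h2
        exact adjb_cons (adjb_of h3 rfl ha' hb' hn1.2 hi.tail)

theorem endb_cons {a b x : ℕ} {l : List ℕ} (h : endb a b l = true) : endb a b (x :: l) = true := by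
  match l with
  | [] => simp [endb] at h
  | [_] => simp [endb] at h
  | y :: z :: l => rw [endb]; exact h

theorem endb_of {a b : ℕ} : ∀ {L₁ : List α} {l : List ℕ},
    (l.map φ).Sublist (L₁ ++ [φ a, φ b]) → a ∈ l → b ∈ l → (L₁ ++ [φ a, φ b]).Nodup → InjL φ l →
    endb a b l = true
  | [], l, h, ha, hb, hn, hi => by
    obtain ⟨l', rfl, h1⟩ := head_of h ha hn hi
    have hab : b ≠ a := by
      rintro rfl
      simp at hn
    have hb' : b ∈ l' := by
      rcases List.mem_cons.1 hb with h2 | h2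
      · exact absurd h2 hab
      · exact h2
    obtain ⟨l'', rfl, h3⟩ := head_of h1 hb' (List.nodup_cons.1 hn).2 hi.tail
    have : l'' = [] := by simpa using h3
    subst this
    simp [endb]
  | z :: L₁, l, h, ha, hb, hn, hi => by
    rw [List.cons_append] at h hn
    have hn1 := List.nodup_cons.1 hn
    rcases map_sub_cons h with h1 | ⟨x, l', rfl, rfl, h3⟩
    · exact endb_of h1 ha hb hn1.2 hi
    · have hxa : a ≠ x := by
        rintro rfl
        exact hn1.1 (by simp)
      have hxb : b ≠ x := by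
        rintro rfl
        exact hn1.1 (by simp)
      have ha' : a ∈ l' := by
        rcases List.mem_cons.1 ha with h2 | h2
        · exact absurd h2 hxa
        · exact h2
      have hb' : b ∈ l' := by
        rcases List.mem_cons.1 hb with h2 | h2
        · exact absurd h2 hxb
        · exact h2
      exact endb_cons (endb_of h3 ha' hb' hn1.2 hi.tail)

theorem befb_of {a b : ℕ} : ∀ {L : List α} {l : List ℕ} {L₁ L₂ : List α},
    (l.map φ).Sublist L → L = L₁ ++ φ a :: L₂ → φ b ∈ L₂ → a ∈ l → b ∈ l → L.Nodup → InjL φ l →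
    befb a b l = true
  | [], l, L₁, L₂, _, h, _, _, _, _, _ => by simp at h
  | z :: L, l, L₁, L₂, h, hL, hbL, ha, hb, hn, hi => by
    have hn1 := List.nodup_cons.1 hn
    cases L₁ with
    | nil =>
      rw [List.nil_append] at hL
      obtain ⟨rfl, rfl⟩ := List.cons.inj hL
      obtain ⟨l', rfl, h1⟩ := head_of h ha hn hi
      have hab : b ≠ a := by
        rintro rfl
        exact hn1.1 hbL
      have hb' : b ∈ l' := by
        rcases List.mem_cons.1 hb with h2 | h2
        · exact absurd h2 hab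
        · exact h2
      simp [befb, hb']
    | cons z' L₁ =>
      rw [List.cons_append] at hL
      obtain ⟨rfl, rfl⟩ := List.cons.inj hL
      rcases map_sub_cons h with h1 | ⟨x, l', rfl, rfl, h3⟩
      · exact befb_of h1 rfl hbL ha hb hn1.2 hi
      · have hxa : a ≠ x := by
          rintro rfl
          exact hn1.1 (by simp)
        have hxb : b ≠ x := by
          rintro rfl
          exact hn1.1 (by simp [hbL])
        have ha' : a ∈ l' := by
          rcases List.mem_cons.1 ha with h2 | h2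
          · exact absurd h2 hxa
          · exact h2
        have hb' : b ∈ l' := by
          rcases List.mem_cons.1 hb with h2 | h2
          · exact absurd h2 hxb
          · exact h2
        rw [befb, befb_of h3 rfl hbL ha' hb' hn1.2 hi.tail, Bool.or_true]

theorem ins1_complete {k : ℕ} {y : α} : ∀ {l : List ℕ} {L : List α}, (l.map φ).Sublist L →
    y ∈ L → (∀ x ∈ l, φ x ≠ y) → k ∉ l →
    ∃ l' ∈ ins1 k l, (l'.map (Function.update φ k y)).Sublist L
  | [], L, _, hy, _, _ => ⟨[k], by simp [ins1], by simpa using hy⟩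
  | a :: l, L, h, hy, hx, hk => by
    have hmap : ∀ l' : List ℕ, k ∉ l' → l'.map (Function.update φ k y) = l'.map φ := by
      intro l' hl'
      refine List.map_congr_left fun x hx' => ?_
      rw [Function.update_of_ne]
      rintro rfl
      exact hl' hx'
    rw [List.map_cons, List.cons_sublist_iff] at h
    obtain ⟨r₁, r₂, rfl, h1, h2⟩ := h
    obtain ⟨X, Y, rfl, -⟩ := List.eq_append_cons_of_mem h1
    have hka : k ≠ a := fun h => hk (by simp [h])
    have hkl : k ∉ l := fun h => hk (by simp [h])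
    have h2' := h2.trans (List.sublist_append_right Y r₂)
    by_cases hyX : y ∈ X
    · refine ⟨k :: a :: l, by simp [ins1], ?_⟩
      rw [List.map_cons, Function.update_self, hmap _ hk]
      have e1 : (X ++ φ a :: Y) ++ r₂ = X ++ (φ a :: (Y ++ r₂)) := by simp
      rw [e1, ← List.singleton_append]
      refine List.Sublist.append (List.singleton_sublist.2 hyX) ?_
      rw [List.map_cons]
      exact h2'.cons_cons _
    · have hy' : y ∈ Y ++ r₂ := by
        have hne := hx a (by simp)
        simp only [List.append_assoc, List.cons_append, List.mem_append, List.mem_cons] at hy ⊢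
        rcases hy with h | h | h
        · exact absurd h hyX
        · exact absurd h.symm hne
        · exact h
      obtain ⟨l', h3, h4⟩ := ins1_complete h2' hy' (fun x hx' => hx x (by simp [hx'])) hkl
      refine ⟨a :: l', ?_, ?_⟩
      · rw [ins1]
        exact List.mem_cons_of_mem _ (List.mem_map_of_mem h3)
      · rw [List.map_cons, Function.update_of_ne (Ne.symm hka)]
        have e1 : (X ++ φ a :: Y) ++ r₂ = X ++ (φ a :: (Y ++ r₂)) := by simp
        rw [e1]
        exact (h4.cons_cons _).trans (List.sublist_append_right _ _)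

theorem ins1_perm {k : ℕ} : ∀ {l l' : List ℕ}, l' ∈ ins1 k l → List.Perm l' (k :: l)
  | [], l', h => by
    rw [ins1, List.mem_singleton] at h
    rw [h]
  | a :: l, l', h => by
    rw [ins1] at h
    rcases List.mem_cons.1 h with rfl | h
    · exact List.Perm.refl _
    · obtain ⟨r, h1, rfl⟩ := List.mem_map.1 h
      exact ((ins1_perm h1).cons a).trans (List.Perm.swap _ _ _)

theorem map_update_of_not_mem {k : ℕ} {y : α} {l : List ℕ} (h : k ∉ l) :
    l.map (Function.update φ k y) = l.map φ := by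
  refine List.map_congr_left fun x hx' => ?_
  rw [Function.update_of_ne]
  rintro rfl
  exact h hx'

theorem insS_complete {k : ℕ} {y : α} {s : St ℕ} {S : St α} (h1 : (s.P.map φ).Sublist S.P)
    (h2 : (s.Q.map φ).Sublist S.Q) (hy : y ∈ S.P ++ S.Q) (hx : ∀ x ∈ s.P ++ s.Q, φ x ≠ y)
    (hk : k ∉ s.P ++ s.Q) :
    ∃ s' ∈ insS k s, s'.m = s.m ∧ List.Perm (s'.P ++ s'.Q) (k :: (s.P ++ s.Q)) ∧
      (s'.P.map (Function.update φ k y)).Sublist S.P ∧
      (s'.Q.map (Function.update φ k y)).Sublist S.Q := by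
  rw [List.mem_append, not_or] at hk
  rcases List.mem_append.1 hy with hy | hy
  · obtain ⟨l', h3, h4⟩ := ins1_complete h1 hy (fun x hx' => hx x (by simp [hx'])) hk.1
    refine ⟨⟨l', s.Q, s.m⟩, ?_, rfl, ?_, h4, ?_⟩
    · rw [insS, List.mem_append]
      exact Or.inl (List.mem_map_of_mem h3)
    · exact (ins1_perm h3).append_right s.Q
    · rwa [map_update_of_not_mem hk.2]
  · obtain ⟨l', h3, h4⟩ := ins1_complete h2 hy (fun x hx' => hx x (by simp [hx'])) hk.2
    refine ⟨⟨s.P, l', s.m⟩, ?_, rfl, ?_, ?_, h4⟩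
    · rw [insS, List.mem_append]
      exact Or.inr (List.mem_map_of_mem h3)
    · exact ((ins1_perm h3).append_left s.P).trans List.perm_middle
    · rwa [map_update_of_not_mem hk.1]

end sub

/-! ### Patterns -/

theorem xl_lt {n x : ℕ} (hn : n % 2 = 0) (hx : x < n) : xl x < n := by
  unfold xl; split <;> omega

theorem xl_xl (x : ℕ) : xl (xl x) = x := by
  unfold xl; split_ifs <;> omega

theorem xl_ne (x : ℕ) : xl x ≠ x := by
  unfold xl; split_ifs <;> omega

section rol

variable {α : Type} [DecidableEq α] {lam : α → α} {e f : α}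

/-- The pattern `s` with the naming `φ` is in the state `S`. -/
structure Pat (lam : α → α) (e f : α) (φ : ℕ → α) (s : St ℕ) (S : St α) : Prop where
  /-- the tokens -/
  perm : List.Perm (s.P ++ s.Q) (List.range (sz s))
  /-- even -/
  evn : sz s % 2 = 0
  /-- injective -/
  inj : ∀ x < sz s, ∀ y < sz s, φ x = φ y → x = y
  /-- pairing -/
  lam : ∀ x < sz s, φ (xl x) = lam (φ x)
  /-- first -/
  h0 : φ 0 = e
  /-- second -/
  h1 : φ 1 = f
  /-- pointer -/
  hm : φ s.m = S.m
  /-- pointer -/
  ms : s.m < sz s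
  /-- top -/
  sP : (s.P.map φ).Sublist S.P
  /-- bottom -/
  sQ : (s.Q.map φ).Sublist S.Q

variable {φ : ℕ → α} {s : St ℕ} {S : St α}

theorem Pat.mem (h : Pat lam e f φ s S) {x : ℕ} : x ∈ s.P ++ s.Q ↔ x < sz s := by
  rw [h.perm.mem_iff, List.mem_range]

theorem Pat.nd (h : Pat lam e f φ s S) : (s.P ++ s.Q).Nodup :=
  h.perm.nodup_iff.2 List.nodup_range

theorem Pat.injL (h : Pat lam e f φ s S) : InjL φ (s.P ++ s.Q) :=
  fun x hx y hy => h.inj x (h.mem.1 hx) y (h.mem.1 hy)

theorem Pat.injP (h : Pat lam e f φ s S) : InjL φ s.P :=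
  fun x hx y hy => h.injL x (by simp [hx]) y (by simp [hy])

theorem Pat.injQ (h : Pat lam e f φ s S) : InjL φ s.Q :=
  fun x hx y hy => h.injL x (by simp [hx]) y (by simp [hy])

theorem Pat.memP (h : Pat lam e f φ s S) (hS : Ok lam e f S) {x : ℕ} (hx : x < sz s) :
    x ∈ s.P ↔ φ x ∈ S.P := by
  constructor
  · exact fun h1 => h.sP.subset (List.mem_map_of_mem h1)
  · intro h1
    rcases List.mem_append.1 (h.mem.2 hx) with h2 | h2
    · exact h2
    · exact absurd rfl ((List.nodup_append.1 hS.nd).2.2 _ h1 _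
        (h.sQ.subset (List.mem_map_of_mem h2)))

theorem Pat.memQ (h : Pat lam e f φ s S) (hS : Ok lam e f S) {x : ℕ} (hx : x < sz s) :
    x ∈ s.Q ↔ φ x ∈ S.Q := by
  constructor
  · exact fun h1 => h.sQ.subset (List.mem_map_of_mem h1)
  · intro h1
    rcases List.mem_append.1 (h.mem.2 hx) with h2 | h2
    · exact absurd rfl ((List.nodup_append.1 hS.nd).2.2 _
        (h.sP.subset (List.mem_map_of_mem h2)) _ h1)
    · exact h2

/-- Insertion of a new pair. -/
theorem Pat.ins (h : Pat lam e f φ s S) (hS : Ok lam e f S) {y : α} (hy : y ∈ S.P ++ S.Q)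
    (hn : ∀ x < sz s, φ x ≠ y) : ∃ s' ∈ insP s, ∃ φ' : ℕ → α, Pat lam e f φ' s' S ∧
      sz s' = sz s + 2 ∧ φ' (sz s) = y ∧ ∀ x < sz s, φ' x = φ x := by
  have hkn : sz s ∉ s.P ++ s.Q := fun hk => absurd (h.mem.1 hk) (lt_irrefl _)
  obtain ⟨s₁, h1, h2, h3, h4, h5⟩ := insS_complete (k := sz s) h.sP h.sQ hy
    (fun x hx => hn x (h.mem.1 hx)) hkn
  have hm1 : ∀ x, x ∈ s₁.P ++ s₁.Q ↔ x = sz s ∨ x < sz s := fun x => by
    rw [h3.mem_iff, List.mem_cons, h.mem]
  have hly : ∀ x < sz s, φ x ≠ lam y := fun x hx he => by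
    have e1 := h.lam x hx
    rw [he, hS.inv y hy] at e1
    exact hn _ (xl_lt h.evn hx) e1
  set φ₁ := Function.update φ (sz s) y with hφ₁
  have hφ₁1 : φ₁ (sz s) = y := Function.update_self _ _ _
  have hφ₁2 : ∀ x < sz s, φ₁ x = φ x := fun x hx => Function.update_of_ne (by omega) _ _
  obtain ⟨s₂, h6, h7, h8, h9, h10⟩ := insS_complete (k := sz s + 1) (y := lam y) (φ := φ₁) h4 h5
    (hS.mem y hy) (fun x hx => by
      rcases (hm1 x).1 hx with h | h
      · rw [h, hφ₁1]; exact (hS.ne y hy).symm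
      · rw [hφ₁2 x h]; exact hly x h)
    (fun hk => by have := (hm1 _).1 hk; omega)
  set φ₂ := Function.update φ₁ (sz s + 1) (lam y) with hφ₂
  have hφ₂0 : φ₂ (sz s + 1) = lam y := Function.update_self _ _ _
  have hφ₂1 : φ₂ (sz s) = y := by
    rw [hφ₂, Function.update_of_ne (by omega), hφ₁1]
  have hφ₂2 : ∀ x < sz s, φ₂ x = φ x := fun x hx => by
    rw [hφ₂, Function.update_of_ne (by omega), hφ₁2 x hx]
  have hsz : sz s₂ = sz s + 2 := by
    have e1 := h8.length_eq
    have e2 := h3.length_eq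
    simp only [List.length_append, List.length_cons] at e1 e2
    unfold sz
    omega
  have hev := h.evn
  have hcase : ∀ x < sz s₂, x < sz s ∨ x = sz s ∨ x = sz s + 1 := fun x hx => by omega
  have hinv := hS.inv y hy
  have hyl := hS.ne y hy
  have hsp := h.ms
  refine ⟨s₂, ?_, φ₂, ⟨?_, by omega, ?_, ?_, ?_, ?_, ?_, ?_, h9, h10⟩, hsz, hφ₂1, hφ₂2⟩
  · rw [insP, List.mem_flatMap]
    exact ⟨s₁, h1, h6⟩
  · rw [hsz, List.range_succ, List.range_succ]
    refine (h8.trans ((h3.trans (h.perm.cons _)).cons _)).trans ?_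
    have e1 : List.range (sz s) ++ [sz s] ++ [sz s + 1] =
      List.range (sz s) ++ ([sz s, sz s + 1]) := by simp
    rw [e1]
    refine List.Perm.trans ?_ List.perm_append_comm
    exact List.Perm.swap _ _ _
  · intro x hx z hz hxz
    rcases hcase x hx with h11 | h11 | h11 <;> rcases hcase z hz with h12 | h12 | h12
    · rw [hφ₂2 x h11, hφ₂2 z h12] at hxz
      exact h.inj x h11 z h12 hxz
    · rw [hφ₂2 x h11, h12, hφ₂1] at hxz
      exact absurd hxz (hn x h11)
    · rw [hφ₂2 x h11, h12, hφ₂0] at hxz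
      exact absurd hxz (hly x h11)
    · rw [hφ₂2 z h12, h11, hφ₂1] at hxz
      exact absurd hxz.symm (hn z h12)
    · omega
    · rw [h11, h12, hφ₂1, hφ₂0] at hxz
      exact absurd hxz.symm hyl
    · rw [hφ₂2 z h12, h11, hφ₂0] at hxz
      exact absurd hxz.symm (hly z h12)
    · rw [h11, h12, hφ₂1, hφ₂0] at hxz
      exact absurd hxz hyl
    · omega
  · intro x hx
    rcases hcase x hx with h11 | h11 | h11
    · rw [hφ₂2 x h11, hφ₂2 _ (xl_lt hev h11)]
      exact h.lam x h11
    · have : xl x = sz s + 1 := by unfold xl; rw [if_pos (by omega)]; omega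
      rw [this, h11, hφ₂0, hφ₂1]
    · have : xl x = sz s := by unfold xl; rw [if_neg (by omega)]; omega
      rw [this, h11, hφ₂0, hφ₂1, hinv]
  · rw [hφ₂2 0 (by omega)]; exact h.h0
  · rw [hφ₂2 1 (by omega)]; exact h.h1
  · rw [h7, h2, hφ₂2 _ hsp]; exact h.hm
  · rw [h7, h2]; omega

/-- The pattern with roles is in the state. -/
structure Rol (lam : α → α) (e f : α) (φ : ℕ → α) (c : Ctx) (S : St α) (ys : List α) : Prop where
  /-- pattern -/
  pat : Pat lam e f φ c.1 S
  /-- roles -/
  rol : c.2.map φ = ys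
  /-- roles are tokens -/
  lt : ∀ x ∈ c.2, x < sz c.1

variable {c : Ctx} {ys : List α}

theorem Rol.step (h : Rol lam e f φ c S ys) (hS : Ok lam e f S) {y : α} (hy : y ∈ S.P ++ S.Q) :
    ∃ c' ∈ stepC c, ∃ φ', Rol lam e f φ' c' S (y :: ys) := by
  by_cases hx : ∃ x < sz c.1, φ x = y
  · obtain ⟨x, hx, rfl⟩ := hx
    refine ⟨(c.1, x :: c.2), ?_, φ, h.pat, by rw [List.map_cons, h.rol], ?_⟩
    · rw [stepC, List.mem_append]
      exact Or.inl (List.mem_map.2 ⟨x, List.mem_range.2 hx, rfl⟩)
    · intro z hz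
      rcases List.mem_cons.1 hz with h1 | h1
      · rw [h1]; exact hx
      · exact h.lt z h1
  · push Not at hx
    obtain ⟨s', h1, φ', h2, h3, h4, h5⟩ := h.pat.ins hS hy hx
    refine ⟨(s', sz c.1 :: c.2), ?_, φ', h2, ?_, ?_⟩
    · rw [stepC, List.mem_append]
      exact Or.inr (List.mem_map.2 ⟨s', h1, rfl⟩)
    · rw [List.map_cons, h4, ← h.rol]
      congr 1
      exact List.map_congr_left fun x hx => h5 x (h.lt x hx)
    · intro z hz
      rw [h3]
      rcases List.mem_cons.1 hz with h1 | h1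
      · rw [h1]; omega
      · have := h.lt z h1; omega

theorem exists_first {l : List α} (hn : l.Nodup) (hi : ∀ x ∈ l, lam (lam x) = x)
    (hne : ∀ x ∈ l, lam x ≠ x) (h : ∃ x ∈ l, lam x ∈ l) :
    ∃ L₁ x L₂, l = L₁ ++ x :: L₂ ∧ lam x ∈ L₂ := by
  obtain ⟨x, hx, hx'⟩ := h
  obtain ⟨A, C, rfl, -⟩ := List.eq_append_cons_of_mem hx
  simp only [List.mem_append, List.mem_cons] at hx'
  rcases hx' with h1 | h1 | h1
  · obtain ⟨A₁, A₂, rfl, -⟩ := List.eq_append_cons_of_mem h1
    refine ⟨A₁, lam x, A₂ ++ x :: C, by simp, ?_⟩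
    rw [hi x hx]; simp
  · exact absurd h1 (hne x hx)
  · exact ⟨A, x, C, rfl, h1⟩

theorem Rol.tt (h : Rol lam e f φ c S ys) (hS : Ok lam e f S) (hp : ∃ x ∈ S.P, lam x ∈ S.P) :
    ∃ c' ∈ ttC c, ∃ φ', Rol lam e f φ' c' S ys := by
  by_cases hb : prb c.1.P = true
  · exact ⟨c, by rw [ttC, if_pos hb]; simp, φ, h⟩
  · obtain ⟨L₁, x, L₂, h1, h2⟩ := exists_first (List.nodup_append.1 hS.nd).1
      (fun x hx => hS.inv x (by simp [hx])) (fun x hx => hS.ne x (by simp [hx])) hp
    have hxP : x ∈ S.P := by rw [h1]; simp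
    have hxP' : lam x ∈ S.P := by rw [h1]; simp [h2]
    have hx : ∀ z < sz c.1, φ z ≠ x := by
      rintro z hz rfl
      apply hb
      have h3 := (h.pat.memP hS hz).2 hxP
      have h4 := (h.pat.memP hS (xl_lt h.pat.evn hz)).2 (by rw [h.pat.lam z hz]; exact hxP')
      unfold prb
      exact List.any_eq_true.2 ⟨z, h3, by simpa using h4⟩
    obtain ⟨s', h3, φ', h4, h5, h6, h7⟩ := h.pat.ins hS (by simp [hxP]) hx
    have hl : φ' (sz c.1 + 1) = lam x := by
      have := h4.lam (sz c.1) (by omega)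
      rw [h6] at this
      rw [← this]
      have hev := h.pat.evn
      congr 1
      unfold xl; rw [if_pos hev]
    refine ⟨(s', c.2), ?_, φ', h4, ?_, ?_⟩
    · rw [ttC, if_neg hb, List.mem_map]
      refine ⟨s', List.mem_filter.2 ⟨h3, ?_⟩, rfl⟩
      refine befb_of h4.sP (L₁ := L₁) (L₂ := L₂) (by rw [h6]; exact h1) (by rw [hl]; exact h2)
        ((h4.memP hS (by omega)).2 (by rw [h6]; exact hxP))
        ((h4.memP hS (by omega)).2 (by rw [hl]; exact hxP')) (List.nodup_append.1 hS.nd).1 h4.injP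
    · rw [← h.rol]
      exact List.map_congr_left fun x hx => h7 x (h.lt x hx)
    · intro z hz
      show z < sz s'
      have := h.lt z hz; omega

theorem Rol.bb (h : Rol lam e f φ c S ys) (hS : Ok lam e f S) (hp : ∃ x ∈ S.Q, lam x ∈ S.Q) :
    ∃ c' ∈ bbC c, ∃ φ', Rol lam e f φ' c' S ys := by
  by_cases hb : prb c.1.Q = true
  · exact ⟨c, by rw [bbC, if_pos hb]; simp, φ, h⟩
  · obtain ⟨L₁, x, L₂, h1, h2⟩ := exists_first (List.nodup_append.1 hS.nd).2.1
      (fun x hx => hS.inv x (by simp [hx])) (fun x hx => hS.ne x (by simp [hx])) hp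
    have hxP : x ∈ S.Q := by rw [h1]; simp
    have hxP' : lam x ∈ S.Q := by rw [h1]; simp [h2]
    have hx : ∀ z < sz c.1, φ z ≠ x := by
      rintro z hz rfl
      apply hb
      have h3 := (h.pat.memQ hS hz).2 hxP
      have h4 := (h.pat.memQ hS (xl_lt h.pat.evn hz)).2 (by rw [h.pat.lam z hz]; exact hxP')
      unfold prb
      exact List.any_eq_true.2 ⟨z, h3, by simpa using h4⟩
    obtain ⟨s', h3, φ', h4, h5, h6, h7⟩ := h.pat.ins hS (by simp [hxP]) hx
    have hl : φ' (sz c.1 + 1) = lam x := by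
      have := h4.lam (sz c.1) (by omega)
      rw [h6] at this
      rw [← this]
      have hev := h.pat.evn
      congr 1
      unfold xl; rw [if_pos hev]
    refine ⟨(s', c.2), ?_, φ', h4, ?_, ?_⟩
    · rw [bbC, if_neg hb, List.mem_map]
      refine ⟨s', List.mem_filter.2 ⟨h3, ?_⟩, rfl⟩
      refine befb_of h4.sQ (L₁ := L₁) (L₂ := L₂) (by rw [h6]; exact h1) (by rw [hl]; exact h2)
        ((h4.memQ hS (by omega)).2 (by rw [h6]; exact hxP))
        ((h4.memQ hS (by omega)).2 (by rw [hl]; exact hxP')) (List.nodup_append.1 hS.nd).2.1 h4.injQ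
    · rw [← h.rol]
      exact List.map_congr_left fun x hx => h7 x (h.lt x hx)
    · intro z hz
      show z < sz s'
      have := h.lt z hz; omega

end rol

end Pool.Agent.QuadEq.Star.N3a
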