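import Pool.Agent.Lib.MP_b7851d_lc.Star.N3a.Tab

/-!
# N3a: the rows A, B and C2
-/

set_option linter.unusedSectionVars false

namespace Pool.Agent.QuadEq.Star.N3a

variable {α : Type} [DecidableEq α] {lam io : α → α} {e f : α} {X : Finset α} {S : St α}

/-- The next token in one of the words. -/
def Nn (S : St α) (a b : α) : Prop := Nxt S.P a b ∨ Nxt S.Q a b

theorem nxt_mem {l : List α} {a b : α} (h : Nxt l a b) : a ∈ l ∧ b ∈ l := by
  obtain ⟨l₁, l₂, rfl⟩ := h
  simp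

theorem nxt_unique {l : List α} {a b c : α} (hn : l.Nodup) (h : Nxt l a b) (h' : Nxt l a c) :
    b = c := by
  obtain ⟨l₁, l₂, rfl⟩ := h
  obtain ⟨l₃, l₄, h2⟩ := h'
  obtain ⟨-, h3⟩ := split_unique hn h2
  exact (List.cons.inj h3).1

theorem nxt_not_last {l : List α} {a b : α} (hn : l.Nodup) (h : Nxt l a b) :
    l.getLast? ≠ some a := by
  obtain ⟨l₁, l₂, rfl⟩ := h
  intro h1
  rw [List.getLast?_append, List.getLast?_cons_cons] at h1
  have h2 : ((b :: l₂).getLast?).isSome := by simp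
  obtain ⟨c, hc⟩ := Option.isSome_iff_exists.1 h2
  rw [hc] at h1
  simp only [Option.some_or, Option.some.injEq] at h1
  subst h1
  have := List.mem_of_getLast? hc
  have hn' := (List.nodup_append.1 hn).2.1
  exact (List.nodup_cons.1 hn').1 this

theorem exists_pred {l : List α} {q : α} (hq : q ∈ l) (hh : l.head? ≠ some q) :
    ∃ a, Nxt l a q := by
  obtain ⟨A, C, rfl, -⟩ := List.eq_append_cons_of_mem hq
  rcases List.eq_nil_or_concat A with rfl | ⟨A, a, rfl⟩
  · simp at hh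
  · exact ⟨a, A, C, by simp⟩

section facts

variable (hS : Dst lam e f S) (hC : Cls lam io e f X S)

include hS

theorem d_lfe : lam f = e := hS.ok.lfe

theorem d_nP : S.P.Nodup := (List.nodup_append.1 hS.ok.nd).1

theorem d_nQ : S.Q.Nodup := (List.nodup_append.1 hS.ok.nd).2.1

theorem d_dis {x : α} (h : x ∈ S.P) (h' : x ∈ S.Q) : False :=
  (List.nodup_append.1 hS.ok.nd).2.2 x h x h' rfl

theorem d_eP : e ∈ S.P := List.mem_of_getLast? hS.ok.le

theorem d_fQ : f ∈ S.Q := List.mem_of_getLast? hS.ok.lf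

theorem d_mQ : S.m ∈ S.Q := by
  obtain ⟨B, hB⟩ := hS.bot
  rw [hB]; simp

theorem d_mP : lam S.m ∈ S.P := by
  obtain ⟨A, hA⟩ := hS.top
  rw [hA]; simp

theorem d_nxm : Nxt S.Q S.m f := by
  obtain ⟨B, hB⟩ := hS.bot
  exact ⟨B, [], hB⟩

theorem d_nxl : Nxt S.P (lam S.m) e := by
  obtain ⟨A, hA⟩ := hS.top
  exact ⟨A, [], hA⟩

theorem d_head_ne_e : S.P.head? ≠ some e := by
  obtain ⟨A, hA⟩ := hS.top
  have hn := (d_nP hS)
  rw [hA] at hn ⊢
  cases A with
  | nil =>
    simp only [List.nil_append, List.head?_cons]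
    simp at hn
    exact fun h => hn (Option.some.inj h)
  | cons a A =>
    intro h
    rw [List.cons_append, List.head?_cons, Option.some.injEq] at h
    subst h
    simp at hn

/-- Nothing comes after `e`. -/
theorem d_nn_e {t : α} (h : Nn S e t) : False := by
  rcases h with h | h
  · exact nxt_not_last (d_nP hS) h hS.ok.le
  · exact (d_dis hS) (d_eP hS) (nxt_mem h).1

/-- Nothing comes after `f`. -/
theorem d_nn_f {t : α} (h : Nn S f t) : False := by
  rcases h with h | h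
  · exact (d_dis hS) (nxt_mem h).1 (d_fQ hS)
  · exact nxt_not_last (d_nQ hS) h hS.ok.lf

theorem d_nn_m {t : α} (h : Nn S S.m t) : t = f := by
  rcases h with h | h
  · exact ((d_dis hS) (nxt_mem h).1 (d_mQ hS)).elim
  · exact nxt_unique (d_nQ hS) h (d_nxm hS)

theorem d_nn_l {t : α} (h : Nn S (lam S.m) t) : t = e := by
  rcases h with h | h
  · exact nxt_unique (d_nP hS) h (d_nxl hS)
  · exact ((d_dis hS) (d_mP hS) (nxt_mem h).1).elim

include hC

theorem c_tk {x : α} (h : x ∈ S.P ++ S.Q) : x ∈ X := (hC.tok x).1 h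

/-- The first token of the top word. -/
theorem c_hu : S.P.head? = some (io f) := by
  have h1 : GG e f S f f := Or.inr (Or.inr ⟨rfl, Or.inr (d_nxm hS)⟩)
  have h2 := hC.com _ _ h1
  rw [(d_lfe hS)] at h2
  rcases h2 with ⟨h3, h4, h5 | h5 | h5⟩ | ⟨h3, h4⟩ | ⟨h3, h4⟩
  · exact ((d_nn_e hS) (Or.inl h5)).elim
  · exact ((d_nn_e hS) (Or.inr h5)).elim
  · exact h5.2
  · exact absurd h3.symm hS.ok.pe
  · exact absurd (h3 ▸ (d_fQ hS)) (fun h => (d_dis hS) (d_eP hS) h)

theorem c_uP : io f ∈ S.P := List.mem_of_mem_head? (Option.mem_def.2 ((c_hu hS hC)))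

theorem c_une : io f ≠ e := fun h => (d_head_ne_e hS) (h ▸ (c_hu hS hC))

theorem c_fX : f ∈ X := (c_tk hS hC) (by simp [(d_fQ hS)])

/-- The successors of the class. -/
theorem c_nn {a b : α} (h : Nn S a b) (ha : a ≠ S.m) (ha' : a ≠ lam S.m) :
    Nn S (lam a) (io b) := by
  have haf : a ≠ f := by
    rintro rfl
    exact (d_nn_f hS) h
  have hae : a ≠ e := by
    rintro rfl
    exact (d_nn_e hS) h
  have h1 : GG e f S a b := by
    refine Or.inl ⟨ha, haf, ?_⟩
    rcases h with h | h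
    · exact Or.inl h
    · exact Or.inr (Or.inl h)
  have hat : a ∈ S.P ++ S.Q := by
    rcases h with h | h
    · simp [(nxt_mem h).1]
    · simp [(nxt_mem h).1]
  have h2 := hC.com _ _ h1
  rcases h2 with ⟨h3, h4, h5 | h5 | h5⟩ | ⟨h3, h4⟩ | ⟨h3, h4⟩
  · exact Or.inl h5
  · exact Or.inr h5
  · exfalso
    apply haf
    rw [← hS.ok.inv a hat, h5.1, hS.ok.lef]
  · exfalso
    apply ha'
    rw [← hS.ok.inv a hat, h3]
  · exfalso
    apply hae
    rw [← hS.ok.inv a hat, h3, (d_lfe hS)]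

/-- `lam q` is not the image of the pointer. -/
theorem c_headQ {q : α} (h : S.Q.head? = some q) : io q = e := by
  have h1 : GG e f S S.m q := Or.inr (Or.inl ⟨rfl, h⟩)
  rcases hC.com _ _ h1 with ⟨h3, h4, h5 | h5 | h5⟩ | ⟨h3, h4⟩ | ⟨h3, h4⟩
  · exact (d_nn_l hS) (Or.inl h5)
  · exact (d_nn_l hS) (Or.inr h5)
  · exfalso
    apply hS.ok.pf
    rw [← hS.ok.inv _ hS.ok.pm, h5.1, hS.ok.lef]
  · exact absurd h3 (hS.ok.ne _ hS.ok.pm)
  · exfalso
    apply hS.ok.pe
    rw [← hS.ok.inv _ hS.ok.pm, h3, (d_lfe hS)]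

end facts

/-! ### The start -/

/-- The first naming. -/
def phi0 (lam : α → α) (e f m : α) (n : ℕ) : α :=
  if n = 0 then e else if n = 1 then f else if n = 2 then m else lam m

theorem rol0 (hS : Dst lam e f S) : Rol lam e f (phi0 lam e f S.m) (st0, []) S [] := by
  obtain ⟨A, hA⟩ := hS.top
  obtain ⟨B, hB⟩ := hS.bot
  have hn := hS.ok.nd
  rw [hA, hB] at hn
  simp only [List.nodup_append, List.mem_append, List.mem_cons, List.not_mem_nil, or_false,
    List.nodup_cons, not_false_eq_true, List.nodup_nil, and_true] at hn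
  have h1 : lam S.m ≠ e := hn.1.2.1
  have h2 : S.m ≠ f := hn.2.1.2.1
  have h3 : e ≠ f := hn.2.2 e (by simp) f (by simp)
  have h4 : e ≠ S.m := hn.2.2 e (by simp) S.m (by simp)
  have h5 : lam S.m ≠ f := hn.2.2 _ (by simp) f (by simp)
  have h6 : lam S.m ≠ S.m := hn.2.2 _ (by simp) S.m (by simp)
  have hsz : sz st0 = 4 := rfl
  refine ⟨⟨by decide, rfl, ?_, ?_, rfl, rfl, rfl, by decide, ?_, ?_⟩, rfl, by simp⟩
  · intro x hx y hy hxy
    simp only [hsz] at hx hy
    interval_cases x <;> interval_cases y <;> simp [phi0] at hxy ⊢ <;>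
      first | exact h1 hxy | exact h1 hxy.symm | exact h2 hxy | exact h2 hxy.symm |
        exact h3 hxy | exact h3 hxy.symm | exact h4 hxy | exact h4 hxy.symm | exact h5 hxy |
        exact h5 hxy.symm | exact h6 hxy | exact h6 hxy.symm
  · intro x hx
    simp only [hsz] at hx
    interval_cases x <;> simp [phi0, xl, hS.ok.lef, (d_lfe hS), hS.ok.inv _ hS.ok.pm]
  · show ([3, 0].map (phi0 lam e f S.m)).Sublist S.P
    rw [hA]
    exact List.sublist_append_right _ _
  · show ([2, 1].map (phi0 lam e f S.m)).Sublist S.Q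
    rw [hB]
    exact List.sublist_append_right _ _

/-! ### The rows -/

theorem map_one {φ : ℕ → α} {l : List ℕ} {u : α} (h : l.map φ = [u]) : ∃ x, l = [x] ∧ φ x = u := by
  match l with
  | [] => simp at h
  | [x] => exact ⟨x, rfl, by simpa using h⟩
  | _ :: _ :: _ => simp at h

theorem map_two {φ : ℕ → α} {l : List ℕ} {a u : α} (h : l.map φ = [a, u]) :
    ∃ y x, l = [y, x] ∧ φ y = a ∧ φ x = u := by
  match l with
  | [] => simp at h
  | [x] => simp at h
  | [y, x] =>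
    simp only [List.map_cons, List.map_nil, List.cons.injEq, and_true] at h
    exact ⟨y, x, rfl, h.1, h.2⟩
  | _ :: _ :: _ :: _ => simp at h

theorem map_three {φ : ℕ → α} {l : List ℕ} {q a u : α} (h : l.map φ = [q, a, u]) :
    ∃ z y x, l = [z, y, x] ∧ φ z = q ∧ φ y = a ∧ φ x = u := by
  match l with
  | [] => simp at h
  | [x] => simp at h
  | [y, x] => simp at h
  | [z, y, x] =>
    simp only [List.map_cons, List.map_nil, List.cons.injEq, and_true] at h
    exact ⟨z, y, x, rfl, h.1, h.2.1, h.2.2⟩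
  | _ :: _ :: _ :: _ :: _ => simp at h

theorem agr_mono {k k' : ℕ} {q : α} (h : Agr lam io e f k S q) (hk : k ≤ k') :
    Agr lam io e f k' S q := by
  obtain ⟨S', l, h1, h2, h3, h4⟩ := h
  exact ⟨S', l, ⟨h1.1.mono hk, h1.2.mono hk⟩, h2, h3, h4⟩

variable {φ : ℕ → α} {c : Ctx} {ys : List α} {u a q : α}

/-- Facts on the roles of row A. -/
structure FA (lam : α → α) (e f : α) (S : St α) (u a q : α) : Prop where
  hu : S.P.head? = some u
  aq : Nn S a q
  laq : Nn S (lam a) (lam q)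
  q0 : q ≠ e
  q1 : q ≠ f
  qu : q ≠ u
  qv : q ≠ lam u

theorem tA_of (h : Rol lam e f φ c S ys) (hS : Dst lam e f S) (F : FA lam e f S u a q)
    (hy : ys = [u] ∨ ys = [a, u] ∨ ys = [q, a, u]) : tA c = true := by
  obtain ⟨s, rs⟩ := c
  have hp := h.pat
  have hf := hp.form hS
  have hr := h.rol
  have hlt := h.lt
  simp only at hp hf hr hlt
  have hsz : 2 ≤ sz s := by have := hp.ms; have := hp.evn; omega
  rcases hy with rfl | rfl | rfl
  · obtain ⟨x, rfl, rfl⟩ := map_one hr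
    have h1 := hp.head hS.ok (hlt x (by simp)) F.hu
    simp [tA, hf, h1]
  · obtain ⟨y, x, rfl, rfl, rfl⟩ := map_two hr
    have h1 := hp.head hS.ok (hlt x (by simp)) F.hu
    simp [tA, hf, h1]
  · obtain ⟨z, y, x, rfl, rfl, rfl, rfl⟩ := map_three hr
    have hz := hlt z (by simp)
    have hy := hlt y (by simp)
    have hx := hlt x (by simp)
    have h1 := hp.head hS.ok hx F.hu
    have h2 := hp.adj hS.ok hy hz F.aq
    have h3 := hp.adj hS.ok (xl_lt hp.evn hy) (xl_lt hp.evn hz)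
      (by rw [hp.lam y hy, hp.lam z hz]; exact F.laq)
    have h4 : z ≠ 0 := fun h => F.q0 (by rw [h, hp.h0])
    have h5 : z ≠ 1 := fun h => F.q1 (by rw [h, hp.h1])
    have h6 : z ≠ x := fun h => F.qu (by rw [h])
    have h7 : z ≠ xl x := fun h => F.qv (by rw [h, hp.lam x hx])
    simp [tA, hf, h1, h2, h3, h4, h5, h6, h7]

/-- Facts on the roles of row B. -/
structure FB (lam : α → α) (e f : α) (S : St α) (u a q : α) : Prop where
  hu : S.P.head? = some u
  hv : S.Q.head? = some (lam u)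
  aq : Nn S a q
  q0 : q ≠ e
  q1 : q ≠ f
  qu : q ≠ u
  qv : q ≠ lam u

theorem tB_of (h : Rol lam e f φ c S ys) (hS : Dst lam e f S) (F : FB lam e f S u a q)
    (hy : ys = [u] ∨ ys = [a, u] ∨ ys = [q, a, u]) : tB c = true := by
  obtain ⟨s, rs⟩ := c
  have hp := h.pat
  have hf := hp.form hS
  have hr := h.rol
  have hlt := h.lt
  simp only at hp hf hr hlt
  have hsz : 2 ≤ sz s := by have := hp.ms; have := hp.evn; omega
  rcases hy with rfl | rfl | rfl
  · obtain ⟨x, rfl, rfl⟩ := map_one hr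
    have hx := hlt x (by simp)
    have h1 := hp.head hS.ok hx F.hu
    have h0 := hp.headQ hS.ok (xl_lt hp.evn hx) (by rw [hp.lam x hx]; exact F.hv)
    simp [tB, hf, h1, h0]
  · obtain ⟨y, x, rfl, rfl, rfl⟩ := map_two hr
    have hx := hlt x (by simp)
    have h1 := hp.head hS.ok hx F.hu
    have h0 := hp.headQ hS.ok (xl_lt hp.evn hx) (by rw [hp.lam x hx]; exact F.hv)
    simp [tB, hf, h1, h0]
  · obtain ⟨z, y, x, rfl, rfl, rfl, rfl⟩ := map_three hr
    have hz := hlt z (by simp)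
    have hy := hlt y (by simp)
    have hx := hlt x (by simp)
    have h1 := hp.head hS.ok hx F.hu
    have h0 := hp.headQ hS.ok (xl_lt hp.evn hx) (by rw [hp.lam x hx]; exact F.hv)
    have h2 := hp.adj hS.ok hy hz F.aq
    have h4 : z ≠ 0 := fun h => F.q0 (by rw [h, hp.h0])
    have h5 : z ≠ 1 := fun h => F.q1 (by rw [h, hp.h1])
    have h6 : z ≠ x := fun h => F.qu (by rw [h])
    have h7 : z ≠ xl x := fun h => F.qv (by rw [h, hp.lam x hx])
    simp [tB, hf, h1, h0, h2, h4, h5, h6, h7]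

theorem tC_of (h : Rol lam e f φ c S ys) (hS : Dst lam e f S) (hu : S.P.head? = some u)
    (hav : Nn S a (lam u)) (hy : ys = [u] ∨ ys = [a, u]) : tC c = true := by
  obtain ⟨s, rs⟩ := c
  have hp := h.pat
  have hf := hp.form hS
  have hr := h.rol
  have hlt := h.lt
  simp only at hp hf hr hlt
  rcases hy with rfl | rfl
  · obtain ⟨x, rfl, rfl⟩ := map_one hr
    have h1 := hp.head hS.ok (hlt x (by simp)) hu
    simp [tC, hf, h1]
  · obtain ⟨y, x, rfl, rfl, rfl⟩ := map_two hr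
    have hy := hlt y (by simp)
    have hx := hlt x (by simp)
    have h1 := hp.head hS.ok hx hu
    have h2 := hp.adj hS.ok hy (xl_lt hp.evn hx) (by rw [hp.lam x hx]; exact hav)
    simp [tC, hf, h1, h2]

theorem nn_mem {b : α} (h : Nn S a b) : a ∈ S.P ++ S.Q ∧ b ∈ S.P ++ S.Q := by
  rcases h with h | h
  · simp [(nxt_mem h).1, (nxt_mem h).2]
  · simp [(nxt_mem h).1, (nxt_mem h).2]

/-- Row A. -/
theorem rowA : AStm := by
  refine ⟨800, ?_⟩
  intro α _ lam io e f X S hS hC q hq hql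
  have hu := c_hu hS hC
  have hfX := c_fX hS hC
  have hqt : q ∈ S.P ++ S.Q := (hC.tok q).2 hq
  have q0 : q ≠ e := by
    rintro rfl
    apply c_une hS hC
    rw [hS.ok.lef] at hql
    rw [← hql]
    exact hC.inv _ hq
  have q1 : q ≠ f := by
    rintro rfl
    rw [d_lfe hS] at hql
    exact c_une hS hC hql
  have huX : io f ∈ X := hC.mem f hfX
  have qu : q ≠ io f := by
    rintro rfl
    rw [hC.inv f hfX] at hql
    apply c_une hS hC
    rw [← hS.ok.inv (io f) hqt, ← hql, d_lfe hS]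
  have qv : q ≠ lam (io f) := by
    intro hqv
    have hut : io f ∈ S.P ++ S.Q := (hC.tok _).2 huX
    have h1 : lam q = io f := by rw [hqv, hS.ok.inv _ hut]
    rw [h1] at hql
    have h2 : q = f := by
      have := hC.inv q hq
      rw [hql, hC.inv f hfX] at this
      exact this.symm
    exact q1 h2
  have hhP : S.P.head? ≠ some q := by
    rw [hu]
    exact fun h => qu (Option.some.inj h).symm
  have hhQ : S.Q.head? ≠ some q := by
    intro h
    have h1 := c_headQ hS hC h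
    rw [h1] at hql
    apply q1
    rw [← hS.ok.inv q hqt, ← hql, hS.ok.lef]
  obtain ⟨a, ha⟩ : ∃ a, Nn S a q := by
    rcases List.mem_append.1 hqt with h | h
    · obtain ⟨a, ha⟩ := exists_pred h hhP
      exact ⟨a, Or.inl ha⟩
    · obtain ⟨a, ha⟩ := exists_pred h hhQ
      exact ⟨a, Or.inr ha⟩
  have ham : a ≠ S.m := by
    rintro rfl
    exact q1 (d_nn_m hS ha)
  have hal : a ≠ lam S.m := by
    rintro rfl
    exact q0 (d_nn_l hS ha)
  have hla : Nn S (lam a) (lam q) := hql ▸ c_nn hS hC ha ham hal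
  have F : FA lam e f S (io f) a q := ⟨hu, ha, hla, q0, q1, qu, qv⟩
  obtain ⟨c1, h1, φ1, r1⟩ := (rol0 hS).step hS.ok (y := io f) ((hC.tok _).2 huX)
  have m1 := mem_nxt (t := tA) (List.mem_singleton.2 rfl) h1 (tA_of r1 hS F (Or.inl rfl))
  obtain ⟨c2, h2, φ2, r2⟩ := r1.step hS.ok (y := a) (nn_mem ha).1
  have m2 := mem_nxt (t := tA) m1 h2 (tA_of r2 hS F (Or.inr (Or.inl rfl)))
  obtain ⟨c3, h3, φ3, r3⟩ := r2.step hS.ok (y := q) hqt
  have m3 := mem_nxt (t := tA) m2 h3 (tA_of r3 hS F (Or.inr (Or.inr rfl)))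
  obtain ⟨c4, h4, φ4, r4⟩ := r3.tt hS.ok hS.tt
  have m4 := mem_nxt (t := tA) m3 h4 (tA_of r4 hS F (Or.inr (Or.inr rfl)))
  obtain ⟨c5, h5, φ5, r5⟩ := r4.bb hS.ok hS.bb
  have m5 := mem_nxt (t := tA) m4 h5 (tA_of r5 hS F (Or.inr (Or.inr rfl)))
  obtain ⟨⟨d1, d2⟩, hd⟩ := zip_all okA c5 m5
  obtain ⟨s, rs⟩ := c5
  obtain ⟨z, y, x, hrs, hz, hy, hx⟩ := map_three r5.rol
  simp only at hrs
  subst hrs
  unfold chkAB at hd
  simp only at hd
  have hlt := r5.lt
  simp only at hlt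
  have := r5.pat.agr (io := io) hS (hlt x (by simp)) (hlt z (by simp)) (hlt y (by simp))
    (by rw [hx]; exact hu) (by rw [hy, hz]; exact ha) hx.symm hd
  rw [hz] at this
  exact agr_mono this (by have := wd_length d1; have := wd_length d2; omega)

/-- Row B. -/
theorem rowB : BStm := by
  refine ⟨800, ?_⟩
  intro α _ lam io e f X S hS hC hv q hq q0 q1 qu qv
  have hu := c_hu hS hC
  have hfX := c_fX hS hC
  have hqt : q ∈ S.P ++ S.Q := (hC.tok q).2 hq
  have huX : io f ∈ X := hC.mem f hfX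
  have hhP : S.P.head? ≠ some q := by
    rw [hu]
    exact fun h => qu (Option.some.inj h).symm
  have hhQ : S.Q.head? ≠ some q := by
    rw [hv]
    exact fun h => qv (Option.some.inj h).symm
  obtain ⟨a, ha⟩ : ∃ a, Nn S a q := by
    rcases List.mem_append.1 hqt with h | h
    · obtain ⟨a, ha⟩ := exists_pred h hhP
      exact ⟨a, Or.inl ha⟩
    · obtain ⟨a, ha⟩ := exists_pred h hhQ
      exact ⟨a, Or.inr ha⟩
  have F : FB lam e f S (io f) a q := ⟨hu, hv, ha, q0, q1, qu, qv⟩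
  obtain ⟨c1, h1, φ1, r1⟩ := (rol0 hS).step hS.ok (y := io f) ((hC.tok _).2 huX)
  have m1 := mem_nxt (t := tB) (List.mem_singleton.2 rfl) h1 (tB_of r1 hS F (Or.inl rfl))
  obtain ⟨c2, h2, φ2, r2⟩ := r1.step hS.ok (y := a) (nn_mem ha).1
  have m2 := mem_nxt (t := tB) m1 h2 (tB_of r2 hS F (Or.inr (Or.inl rfl)))
  obtain ⟨c3, h3, φ3, r3⟩ := r2.step hS.ok (y := q) hqt
  have m3 := mem_nxt (t := tB) m2 h3 (tB_of r3 hS F (Or.inr (Or.inr rfl)))
  obtain ⟨c4, h4, φ4, r4⟩ := r3.tt hS.ok hS.tt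
  have m4 := mem_nxt (t := tB) m3 h4 (tB_of r4 hS F (Or.inr (Or.inr rfl)))
  obtain ⟨c5, h5, φ5, r5⟩ := r4.bb hS.ok hS.bb
  have m5 := mem_nxt (t := tB) m4 h5 (tB_of r5 hS F (Or.inr (Or.inr rfl)))
  obtain ⟨⟨d1, d2⟩, hd⟩ := zip_all okB c5 m5
  obtain ⟨s, rs⟩ := c5
  obtain ⟨z, y, x, hrs, hz, hy, hx⟩ := map_three r5.rol
  simp only at hrs
  subst hrs
  unfold chkAB at hd
  simp only at hd
  have hlt := r5.lt
  simp only at hlt
  have := r5.pat.agr (io := io) hS (hlt x (by simp)) (hlt z (by simp)) (hlt y (by simp))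
    (by rw [hx]; exact hu) (by rw [hy, hz]; exact ha) hx.symm hd
  rw [hz] at this
  exact agr_mono this (by have := wd_length d1; have := wd_length d2; omega)

/-- A pattern with all tokens gives the start of an enumeration. -/
theorem rol_of_emb (hS : Dst lam e f S) (h : Emb lam e f gad S) :
    ∃ φ, Rol lam e f φ (gad, []) S [] := by
  obtain ⟨φ, h1, h2, h3, h4, h5, h6, h7⟩ := h
  have hm : ∀ x < 10, x ∈ gad.P ++ gad.Q := by decide
  have hsz : sz gad = 10 := rfl
  refine ⟨φ, ⟨by decide, rfl, ?_, ?_, h3, h4, h5, by decide, h6, h7⟩, rfl, by simp⟩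
  · intro x hx y hy
    rw [hsz] at hx hy
    exact h1 x (hm x hx) y (hm y hy)
  · intro x hx
    rw [hsz] at hx
    exact h2 x (hm x hx)

/-- Row C2. -/
theorem rowC2 : C2Stm := by
  refine ⟨800, ?_⟩
  intro α _ lam io e f X S hS hC hv hE
  have hu := c_hu hS hC
  have hfX := c_fX hS hC
  have huX : io f ∈ X := hC.mem f hfX
  have hut : io f ∈ S.P ++ S.Q := (hC.tok _).2 huX
  have hvt : lam (io f) ∈ S.P ++ S.Q := hS.ok.mem _ hut
  have hhP : S.P.head? ≠ some (lam (io f)) := by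
    rw [hu]
    exact fun h => hS.ok.ne _ hut (Option.some.inj h).symm
  obtain ⟨a, ha⟩ : ∃ a, Nn S a (lam (io f)) := by
    rcases List.mem_append.1 hvt with h | h
    · obtain ⟨a, ha⟩ := exists_pred h hhP
      exact ⟨a, Or.inl ha⟩
    · obtain ⟨a, ha⟩ := exists_pred h hv
      exact ⟨a, Or.inr ha⟩
  obtain ⟨φ0, r0⟩ := rol_of_emb hS hE
  obtain ⟨c1, h1, φ1, r1⟩ := r0.step hS.ok (y := io f) hut
  have m1 := mem_nxt (t := tC) (List.mem_singleton.2 rfl) h1 (tC_of r1 hS hu ha (Or.inl rfl))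
  obtain ⟨c2, h2, φ2, r2⟩ := r1.step hS.ok (y := a) (nn_mem ha).1
  have m2 := mem_nxt (t := tC) m1 h2 (tC_of r2 hS hu ha (Or.inr rfl))
  obtain ⟨⟨d1, d2⟩, hd⟩ := zip_all okC c2 m2
  obtain ⟨s, rs⟩ := c2
  obtain ⟨y, x, hrs, hy, hx⟩ := map_two r2.rol
  simp only at hrs
  subst hrs
  unfold chkC at hd
  simp only at hd
  have hlt := r2.lt
  simp only at hlt
  have hxl := hlt x (by simp)
  have hl : φ2 (xl x) = lam (io f) := by rw [r2.pat.lam x hxl, hx]
  have := r2.pat.agr (io := io) hS hxl (xl_lt r2.pat.evn hxl) (hlt y (by simp))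
    (by rw [hx]; exact hu) (by rw [hy, hl]; exact ha) hx.symm hd
  rw [hl] at this
  exact agr_mono this (by have := wd_length d1; have := wd_length d2; omega)

end Pool.Agent.QuadEq.Star.N3a
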